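import Pool.Agent.Helper72.LG.Cyc

/-!
# The short code of a group with cyclic abelianisation
-/

set_option autoImplicit false

namespace Pool.Agent.Helper72.LG

open Subgroup Finset

variable {G : Type*} [Group G] [Finite G]

lemma prod_dvd_card {S : Finset ℕ} {P : ℕ → Subgroup G} (hP : ∀ p ∈ S, Lone (P p) p)
    {H : Subgroup G} (hH : ∀ p ∈ S, P p ≤ H) : ∏ p ∈ S, p ∣ Nat.card H :=
  Finset.prod_primes_dvd _ (fun p hp => (hP p hp).prime.prime)
    (fun p hp => ((hP p hp).le_iff H).1 (hH p hp))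

lemma exists_bottom {S : Finset ℕ} {P : ℕ → Subgroup G} (hP : ∀ p ∈ S, Lone (P p) p) :
    ∃ D ∈ above S P, ∀ q ∈ S, D ≤ centralizer (P q : Set G) := by
  classical
  refine ⟨S.sup P, ?_, ?_⟩
  · rw [mem_above]
    refine ⟨?_, fun p hp => Finset.le_sup hp⟩
    refine Finset.sup_induction (p := fun H : Subgroup G => H.Normal) ?_ ?_ ?_
    · infer_instance
    · intro a ha b hb
      infer_instance
    · intro p hp
      exact (hP p hp).normal
  · intro q hq
    refine Finset.sup_le fun p hp => ?_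
    by_cases hpq : p = q
    · rw [hpq]
      exact (hP q hq).self_le
    · exact (hP q hq).le_centralizer (hP p hp).normal
        ((hP q hq).not_le (hP p hp) (fun h => hpq h.symm))

/-- the code relation: `k` the cofactor, `S` the set of primes, `a`, `o` the code -/
structure IsCode (R : ℕ) (r : ℝ) (k : ℕ) (S : Finset ℕ) (a o : ℕ → ℕ) : Prop where
  o_dvd : ∀ p ∈ S, o p ∣ k
  sum_le : ∑ j ∈ k.divisors, a j ≤ R * k
  sum_eq : ∑ j ∈ k.divisors, (a j : ℝ) * ∏ p ∈ S, (if o p ∣ j then 1 + 1 / (p : ℝ) else 1) = r * k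
  pos : ∀ q ∈ S, ∃ j ∈ k.divisors, o q ∣ j ∧ 1 ≤ a j

theorem exists_code {S : Finset ℕ} {P : ℕ → Subgroup G} (hP : ∀ p ∈ S, Lone (P p) p)
    {g : G} (hg : commutator G ⊔ zpowers g = ⊤) {R : ℕ} {r : ℝ} (hr : r ≤ R)
    (hσ : ∑ H ∈ nsg G, (Nat.card H : ℝ) = r * Nat.card G) {k : ℕ}
    (hk : Nat.card G = k * ∏ p ∈ S, p) :
    ∃ a o : ℕ → ℕ, IsCode R r k S a o := by
  classical
  set d : ℕ := ∏ p ∈ S, p with hd
  have hd0 : 0 < d := Finset.prod_pos fun p hp => (hP p hp).prime.pos
  have hG0 : 0 < Nat.card G := Nat.card_pos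
  have hk0 : 0 < k := by
    rcases Nat.eq_zero_or_pos k with h | h
    · rw [hk, h, zero_mul] at hG0
      exact absurd hG0 (lt_irrefl 0)
    · exact h
  have hdR : (0 : ℝ) < d := by exact_mod_cast hd0
  set J : Subgroup G → ℕ := fun H => (H ⊔ commutator G).index with hJ
  set o : ℕ → ℕ := fun p => (centralizer (P p : Set G)).index with ho
  set a : ℕ → ℕ := fun j => ∑ H ∈ (above S P).filter (fun H => J H = j), Nat.card H / d with ha
  have hdiv : ∀ H ∈ above S P, Nat.card H = Nat.card H / d * d := by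
    intro H hH
    rw [mem_above] at hH
    exact (Nat.div_mul_cancel (prod_dvd_card hP hH.2)).symm
  have hJk : ∀ H ∈ above S P, J H ∈ k.divisors := by
    intro H hH
    rw [Nat.mem_divisors]
    refine ⟨?_, hk0.ne'⟩
    have h1 : J H ∣ H.index := Subgroup.index_dvd_of_le le_sup_left
    refine h1.trans ?_
    have h2 := H.card_mul_index
    rw [hk, hdiv H hH] at h2
    refine ⟨Nat.card H / d, ?_⟩
    have h3 : (H.index * (Nat.card H / d)) * d = k * d := by
      rw [← h2]
      ring
    exact (Nat.eq_of_mul_eq_mul_right hd0 h3).symm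
  have hoJ : ∀ p ∈ S, ∀ H : Subgroup G, H ≤ centralizer (P p : Set G) ↔ o p ∣ J H := by
    intro p hp H
    rw [← le_iff_dvd hg (K := H ⊔ commutator G) (K' := centralizer (P p : Set G)) le_sup_right
      (hP p hp).commutator_le]
    exact ⟨fun h => sup_le h (hP p hp).commutator_le, fun h => le_sup_left.trans h⟩
  obtain ⟨D, hD, hDc⟩ := exists_bottom hP
  have hwt : ∀ H : Subgroup G, wt S P H = ∏ p ∈ S, (if o p ∣ J H then 1 + 1 / (p : ℝ) else 1) := by
    intro H
    unfold wt
    refine prod_congr rfl fun p hp => ?_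
    simp only [hoJ p hp H]
  have hwt1 : ∀ H : Subgroup G, 1 ≤ wt S P H := by
    intro H
    unfold wt
    calc (1 : ℝ) = ∏ _p ∈ S, (1 : ℝ) := by rw [prod_const_one]
      _ ≤ _ := by
        refine prod_le_prod (fun _ _ => zero_le_one) fun p _ => ?_
        split_ifs
        · have : (0 : ℝ) ≤ 1 / (p : ℝ) := by positivity
          linarith
        · exact le_refl _
  have hmain := sum_nsg S P hP
  refine ⟨a, o, ?_, ?_, ?_, ?_⟩
  · intro p hp
    exact ((hoJ p hp D).1 (hDc p hp)).trans (Nat.dvd_of_mem_divisors (hJk D hD))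
  · have h1 : ∑ j ∈ k.divisors, a j = ∑ H ∈ above S P, Nat.card H / d := by
      rw [ha]
      exact sum_fiberwise_of_maps_to hJk _
    have h2 : (∑ H ∈ above S P, Nat.card H / d) * d ≤ R * k * d := by
      rw [sum_mul]
      rw [sum_congr rfl fun H hH => (hdiv H hH).symm]
      have h3 : (∑ H ∈ above S P, (Nat.card H : ℝ)) ≤ ((R * k * d : ℕ) : ℝ) := by
        calc (∑ H ∈ above S P, (Nat.card H : ℝ)) ≤ ∑ H ∈ above S P, wt S P H * Nat.card H := by
              refine sum_le_sum fun H _ => ?_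
              have h4 : (0 : ℝ) ≤ Nat.card H := Nat.cast_nonneg _
              nlinarith [hwt1 H]
          _ = r * Nat.card G := by rw [← hmain, hσ]
          _ ≤ R * Nat.card G := mul_le_mul_of_nonneg_right hr (Nat.cast_nonneg _)
          _ = _ := by
              rw [hk]
              push_cast
              ring
      exact_mod_cast h3
    rw [h1]
    exact Nat.le_of_mul_le_mul_right h2 hd0
  · have h1 : ∑ j ∈ k.divisors, (a j : ℝ) * ∏ p ∈ S, (if o p ∣ j then 1 + 1 / (p : ℝ) else 1) =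
        ∑ H ∈ above S P, ((Nat.card H / d : ℕ) : ℝ) * wt S P H := by
      rw [← sum_fiberwise_of_maps_to hJk]
      refine sum_congr rfl fun j _ => ?_
      rw [ha]
      push_cast
      rw [sum_mul]
      refine sum_congr rfl fun H hH => ?_
      rw [mem_filter] at hH
      rw [hwt, hH.2]
    rw [h1]
    have h2 : (∑ H ∈ above S P, ((Nat.card H / d : ℕ) : ℝ) * wt S P H) * d = r * k * d := by
      rw [sum_mul]
      calc ∑ H ∈ above S P, ((Nat.card H / d : ℕ) : ℝ) * wt S P H * d =
          ∑ H ∈ above S P, wt S P H * Nat.card H := by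
            refine sum_congr rfl fun H hH => ?_
            have h3 : (Nat.card H : ℝ) = ((Nat.card H / d : ℕ) : ℝ) * d := by
              exact_mod_cast hdiv H hH
            rw [h3]
            ring
        _ = r * Nat.card G := by rw [← hmain, hσ]
        _ = _ := by
            rw [hk]
            push_cast
            ring
    exact mul_right_cancel₀ hdR.ne' h2
  · intro q hq
    refine ⟨J D, hJk D hD, (hoJ q hq D).1 (hDc q hq), ?_⟩
    rw [ha]
    have h1 : D ∈ (above S P).filter (fun H => J H = J D) := by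
      rw [mem_filter]
      exact ⟨hD, rfl⟩
    refine le_trans ?_ (single_le_sum (f := fun H : Subgroup G => Nat.card H / d)
      (fun i _ => Nat.zero_le _) h1)
    rw [Nat.one_le_div_iff hd0]
    exact Nat.le_of_dvd Nat.card_pos (prod_dvd_card hP (mem_above.1 hD).2)

/-- the prime is determined by the other primes and the code -/
theorem prime_unique {R : ℕ} {r : ℝ} {k : ℕ} {S : Finset ℕ} {a o o' : ℕ → ℕ} {p p' : ℕ}
    (hp : p ∉ S) (hp' : p' ∉ S) (hp0 : 0 < p) (hp0' : 0 < p')
    (h : IsCode R r k (insert p S) a o) (h' : IsCode R r k (insert p' S) a o')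
    (ho : ∀ q ∈ S, o q = o' q) (hop : o p = o' p') : p = p' := by
  classical
  set W : ℕ → ℝ := fun j => (a j : ℝ) * ∏ q ∈ S, (if o q ∣ j then 1 + 1 / (q : ℝ) else 1) with hW
  have hW0 : ∀ j, 0 ≤ W j := by
    intro j
    refine mul_nonneg (Nat.cast_nonneg _) (prod_nonneg fun q _ => ?_)
    split_ifs <;> positivity
  set Y : ℝ := ∑ j ∈ k.divisors, if o p ∣ j then W j else 0 with hY
  have hYpos : 0 < Y := by
    obtain ⟨j, hj, hoj, haj⟩ := h.pos p (mem_insert_self p S)
    refine sum_pos' (fun i _ => ?_) ⟨j, hj, ?_⟩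
    · split_ifs
      · exact hW0 i
      · exact le_refl _
    · rw [if_pos hoj]
      refine mul_pos (by exact_mod_cast haj) (prod_pos fun q _ => ?_)
      split_ifs <;> positivity
  have key : ∀ (b : ℕ → ℕ) (q : ℕ), q ∉ S → (∀ t ∈ S, b t = o t) → b q = o p →
      ∑ j ∈ k.divisors, (a j : ℝ) * ∏ t ∈ insert q S, (if b t ∣ j then 1 + 1 / (t : ℝ) else 1) =
        ∑ j ∈ k.divisors, W j + (1 / (q : ℝ)) * Y := by
    intro b q hq hb hbq
    rw [hY, mul_sum, ← sum_add_distrib]
    refine sum_congr rfl fun j _ => ?_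
    rw [prod_insert hq, hbq]
    have h1 : ∏ t ∈ S, (if b t ∣ j then 1 + 1 / (t : ℝ) else 1) =
        ∏ t ∈ S, (if o t ∣ j then 1 + 1 / (t : ℝ) else 1) :=
      prod_congr rfl fun t ht => by rw [hb t ht]
    rw [h1]
    simp only [hW]
    split_ifs <;> ring
  have e1 := key o p hp (fun _ _ => rfl) rfl
  have e2 := key o' p' hp' (fun t ht => (ho t ht).symm) hop.symm
  rw [h.sum_eq] at e1
  rw [h'.sum_eq, e1] at e2
  have h1 : (1 / (p : ℝ)) * Y = (1 / (p' : ℝ)) * Y := by linarith
  have h2 := mul_right_cancel₀ hYpos.ne' h1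
  have h3 : (p : ℝ) = p' := by
    have h4 : (p : ℝ) ≠ 0 := by exact_mod_cast hp0.ne'
    have h5 : (p' : ℝ) ≠ 0 := by exact_mod_cast hp0'.ne'
    field_simp at h2
    exact h2.symm
  exact_mod_cast h3

end Pool.Agent.Helper72.LG
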