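import Pool.Agent.Helper72.LG.Code

/-!
# Counting the codes
-/

set_option autoImplicit false

namespace Pool.Agent.Helper72.LG

open Finset

lemma IsCode.congr {R : ℕ} {r : ℝ} {k : ℕ} {S : Finset ℕ} {a a' o : ℕ → ℕ}
    (h : IsCode R r k S a' o) (ha : ∀ j ∈ k.divisors, a j = a' j) : IsCode R r k S a o := by
  refine ⟨h.o_dvd, ?_, ?_, ?_⟩
  · rw [sum_congr rfl ha]
    exact h.sum_le
  · rw [← h.sum_eq]
    exact sum_congr rfl fun j hj => by rw [ha j hj]
  · intro q hq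
    obtain ⟨j, hj, h1, h2⟩ := h.pos q hq
    exact ⟨j, hj, h1, by rwa [ha j hj]⟩

/-- the number of integers with a code -/
lemma count {Gd Ms : Finset ℕ} {m p kf : ℕ → ℕ} {Sf : ℕ → Finset ℕ} {R : ℕ} {r : ℝ} {T K : ℕ}
    (hT : 1 ≤ T)
    (h1 : ∀ n ∈ Gd, n = m n * p n ∧ p n ∉ Sf (m n) ∧ 0 < p n ∧ m n ∈ Ms ∧
      ∃ a o, IsCode R r (kf (m n)) (insert (p n) (Sf (m n))) a o)
    (h2 : ∀ μ ∈ Ms, (kf μ).divisors.card ≤ T ∧ kf μ ≤ K ∧ kf μ ≠ 0 ∧ (Sf μ).card ≤ T) :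
    Gd.card ≤ Ms.card * ((R * K + 1) ^ T * (T ^ T * T)) := by
  classical
  rw [card_eq_sum_card_fiberwise (f := m) (t := Ms) fun n hn => (h1 n hn).2.2.2.1]
  rw [← smul_eq_mul]
  refine sum_le_card_nsmul _ _ _ fun μ hμ => ?_
  obtain ⟨hc1, hc2, hc3, hc4⟩ := h2 μ hμ
  have hex : ∀ n : ℕ, ∃ ao : (ℕ → ℕ) × (ℕ → ℕ), n ∈ Gd → m n = μ →
      IsCode R r (kf μ) (insert (p n) (Sf μ)) ao.1 ao.2 := by
    intro n
    by_cases hn : n ∈ Gd ∧ m n = μ
    · obtain ⟨_, _, _, _, a, o, hao⟩ := h1 n hn.1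
      refine ⟨(a, o), fun _ _ => ?_⟩
      rw [hn.2] at hao
      exact hao
    · exact ⟨(fun _ => 0, fun _ => 0), fun h h' => absurd ⟨h, h'⟩ hn⟩
  choose ao hao using hex
  set C := ((kf μ).divisors.pi fun _ => range (R * K + 1)) ×ˢ
    (((Sf μ).pi fun _ => (kf μ).divisors) ×ˢ (kf μ).divisors) with hC
  have hcard : C.card ≤ (R * K + 1) ^ T * (T ^ T * T) := by
    rw [hC, card_product, card_product, Finset.card_pi, Finset.card_pi, prod_const, prod_const,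
      card_range]
    refine Nat.mul_le_mul ?_ (Nat.mul_le_mul ?_ hc1)
    · exact Nat.pow_le_pow_right (by omega) hc1
    · exact (Nat.pow_le_pow_left hc1 _).trans (Nat.pow_le_pow_right hT hc4)
  refine le_trans ?_ hcard
  refine card_le_card_of_injOn
    (fun n => ((fun j _ => (ao n).1 j), ((fun q _ => (ao n).2 q), (ao n).2 (p n)))) ?_ ?_
  · intro n hn
    rw [mem_coe, mem_filter] at hn
    have hcode := hao n hn.1 hn.2
    rw [hC]
    simp only [coe_product, Set.mem_prod, mem_coe, mem_pi]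
    refine ⟨fun j hj => ?_, fun q hq => ?_, ?_⟩
    · rw [mem_range, Nat.lt_succ_iff]
      calc (ao n).1 j ≤ ∑ j ∈ (kf μ).divisors, (ao n).1 j :=
            single_le_sum (f := (ao n).1) (fun _ _ => Nat.zero_le _) hj
        _ ≤ R * kf μ := hcode.sum_le
        _ ≤ R * K := Nat.mul_le_mul_left _ hc2
    · rw [Nat.mem_divisors]
      exact ⟨hcode.o_dvd q (mem_insert_of_mem hq), hc3⟩
    · rw [Nat.mem_divisors]
      exact ⟨hcode.o_dvd _ (mem_insert_self _ _), hc3⟩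
  · intro n hn n' hn' heq
    rw [mem_coe, mem_filter] at hn hn'
    simp only [Prod.mk.injEq] at heq
    obtain ⟨e1, e2, e3⟩ := heq
    have hcode := hao n hn.1 hn.2
    have hcode' := hao n' hn'.1 hn'.2
    obtain ⟨a1, a2, a3, -, -⟩ := h1 n hn.1
    obtain ⟨b1, b2, b3, -, -⟩ := h1 n' hn'.1
    rw [hn.2] at a1 a2
    rw [hn'.2] at b1 b2
    have hp : p n = p n' := by
      refine prime_unique a2 b2 a3 b3 hcode (hcode'.congr (a := (ao n).1) ?_) ?_ e3
      · intro j hj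
        exact congrFun (congrFun e1 j) hj
      · intro q hq
        exact congrFun (congrFun e2 q) hq
    rw [a1, b1, hp]

end Pool.Agent.Helper72.LG
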