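import Pool.Agent.Helper72.LG.Sum

/-!
# Groups whose sum of orders of normal subgroups is at most twice the order
-/

set_option autoImplicit false

namespace Pool.Agent.Helper72.LG

open Subgroup Finset

variable {G : Type*} [Group G] [Finite G]

/-- if the sum of the orders of the normal subgroups is at most twice the order, then the group
modulo its commutator subgroup is cyclic -/
lemma exists_generator (h : ∑ H ∈ nsg G, (Nat.card H : ℝ) ≤ 2 * Nat.card G) :
    ∃ g : G, commutator G ⊔ zpowers g = ⊤ := by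
  classical
  by_contra hcon
  push Not at hcon
  have : Fintype G := Fintype.ofFinite G
  set N : G → Subgroup G := fun g => commutator G ⊔ zpowers g with hN
  have hNn : ∀ g, (N g).Normal := fun g => Subgroup.Normal.of_commutator_le G le_sup_left
  obtain ⟨g₀, hg₀⟩ : ∃ g₀ : G, g₀ ∉ commutator G := by
    by_contra h1
    push Not at h1
    refine hcon 1 ?_
    rw [eq_top_iff]
    intro x _
    exact (le_sup_left : commutator G ≤ _) (h1 x)
  -- the pairs
  set T : Finset (Σ _ : Subgroup G, G) := ((nsg G).erase ⊤).sigma (fun H => univ.filter (fun x => x ∈ H)) with hT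
  have hTc : T.card = ∑ H ∈ (nsg G).erase ⊤, Nat.card H := by
    rw [hT, card_sigma]
    refine sum_congr rfl fun H _ => ?_
    rw [Nat.card_eq_fintype_card, Fintype.card_subtype]
  set U : Finset (Σ _ : Subgroup G, G) := insert ⟨N g₀, 1⟩ (univ.image fun g => ⟨N g, g⟩) with hU
  have hUc : U.card = Nat.card G + 1 := by
    rw [hU, card_insert_of_notMem, card_image_of_injective, card_univ, Nat.card_eq_fintype_card]
    · intro a b hab
      exact (Sigma.mk.inj_iff.1 hab).2.eq
    · intro hmem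
      rw [mem_image] at hmem
      obtain ⟨g, _, hg⟩ := hmem
      obtain ⟨h1, h2⟩ := Sigma.mk.inj_iff.1 hg
      have h3 : g = 1 := h2.eq
      rw [h3] at h1
      apply hg₀
      have h4 : g₀ ∈ N g₀ := (le_sup_right : zpowers g₀ ≤ N g₀) (mem_zpowers g₀)
      rw [← h1] at h4
      have h5 : N 1 = commutator G := by
        simp [hN]
      rwa [h5] at h4
  have hUT : U ⊆ T := by
    rw [hU, insert_subset_iff]
    constructor
    · rw [hT, mem_sigma, mem_erase, mem_nsg, mem_filter]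
      exact ⟨⟨hcon g₀, hNn g₀⟩, mem_univ _, (N g₀).one_mem⟩
    · intro x hx
      rw [mem_image] at hx
      obtain ⟨g, _, rfl⟩ := hx
      rw [hT, mem_sigma, mem_erase, mem_nsg, mem_filter]
      exact ⟨⟨hcon g, hNn g⟩, mem_univ _, (le_sup_right : zpowers g ≤ N g) (mem_zpowers g)⟩
  have h1 := card_le_card hUT
  rw [hUc, hTc] at h1
  have htop : (⊤ : Subgroup G) ∈ nsg G := mem_nsg.2 inferInstance
  have h2 : ∑ H ∈ nsg G, Nat.card H = Nat.card G + ∑ H ∈ (nsg G).erase ⊤, Nat.card H := by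
    rw [← add_sum_erase _ _ htop, Subgroup.card_top]
  have h3 : 2 * Nat.card G + 1 ≤ ∑ H ∈ nsg G, Nat.card H := by
    rw [h2]
    omega
  have h4 : ((2 * Nat.card G + 1 : ℕ) : ℝ) ≤ ((∑ H ∈ nsg G, Nat.card H : ℕ) : ℝ) := by
    exact_mod_cast h3
  push_cast at h4
  linarith

omit [Finite G] in
/-- the commutator subgroup centralises a normal subgroup of prime order -/
lemma Lone.commutator_le {P : Subgroup G} {p : ℕ} (h : Lone P p) :
    commutator G ≤ centralizer (P : Set G) := by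
  have : Fact p.Prime := ⟨h.prime⟩
  have : IsCyclic P := isCyclic_of_prime_card h.card
  have hn := h.normal
  obtain ⟨u, hu⟩ := IsCyclic.exists_generator (α := P)
  have key : ∀ x : G, ∃ a : ℤ, x * u * x⁻¹ = (u : G) ^ a := by
    intro x
    obtain ⟨a, ha⟩ := Subgroup.mem_zpowers_iff.1 (hu ⟨x * u * x⁻¹, hn.conj_mem u u.2 x⟩)
    exact ⟨a, by rw [← Subgroup.coe_zpow, ha]⟩
  rw [commutator_def, Subgroup.commutator_le]
  intro x _ y _
  rw [commutatorElement_def]
  obtain ⟨a, ha⟩ := key x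
  obtain ⟨b, hb⟩ := key y
  have hxy : (x * y) * u * (x * y)⁻¹ = (u : G) ^ (a * b) := by
    calc (x * y) * u * (x * y)⁻¹ = x * (y * u * y⁻¹) * x⁻¹ := by group
      _ = x * (u : G) ^ b * x⁻¹ := by rw [hb]
      _ = (x * u * x⁻¹) ^ b := by rw [conj_zpow]
      _ = _ := by rw [ha, ← zpow_mul]
  have hyx : (y * x) * u * (y * x)⁻¹ = (u : G) ^ (a * b) := by
    calc (y * x) * u * (y * x)⁻¹ = y * (x * u * x⁻¹) * y⁻¹ := by group
      _ = y * (u : G) ^ a * y⁻¹ := by rw [ha]
      _ = (y * u * y⁻¹) ^ a := by rw [conj_zpow]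
      _ = _ := by rw [hb, ← zpow_mul, mul_comm]
  have hcu : x * y * x⁻¹ * y⁻¹ * u = u * (x * y * x⁻¹ * y⁻¹) := by
    have h1 : (x * y) * u * (x * y)⁻¹ = (y * x) * u * (y * x)⁻¹ := by rw [hxy, hyx]
    -- conjugation by `x * y` and by `y * x` agree on all powers of `u`
    have h4 : ∀ i : ℤ, (x * y) * (u : G) ^ i * (x * y)⁻¹ = (y * x) * (u : G) ^ i * (y * x)⁻¹ := by
      intro i
      rw [← conj_zpow, ← conj_zpow, h1]
    obtain ⟨c, hc⟩ : ∃ c : ℤ, (y * x)⁻¹ * u * (y * x) = (u : G) ^ c := by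
      obtain ⟨c, hc⟩ := key (y * x)⁻¹
      exact ⟨c, by rw [← hc]; group⟩
    have h5 := h4 c
    have h6 : (y * x) * (u : G) ^ c * (y * x)⁻¹ = u := by
      rw [← hc]
      group
    rw [h6, ← hc] at h5
    have h7 : x * y * x⁻¹ * y⁻¹ * u = (x * y * ((y * x)⁻¹ * u * (y * x)) * (x * y)⁻¹) * (x * y * x⁻¹ * y⁻¹) := by
      group
    rw [h7, h5]
  rw [mem_centralizer_iff]
  intro z hz
  obtain ⟨i, hi⟩ := Subgroup.mem_zpowers_iff.1 (hu ⟨z, hz⟩)
  have hz' : z = (u : G) ^ i := by rw [← Subgroup.coe_zpow, hi]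
  have hcomm : Commute (u : G) (x * y * x⁻¹ * y⁻¹) := hcu.symm
  rw [hz']
  exact (hcomm.zpow_left i)

omit [Finite G] in
lemma mem_iff_dvd {g : G} (hg : commutator G ⊔ zpowers g = ⊤) {K : Subgroup G}
    (hK : commutator G ≤ K) (i : ℤ) : g ^ i ∈ K ↔ (K.index : ℤ) ∣ i := by
  have : K.Normal := Subgroup.Normal.of_commutator_le G hK
  have h1 : ∀ x : G ⧸ K, x ∈ zpowers (g : G ⧸ K) := by
    intro x
    obtain ⟨y, rfl⟩ := QuotientGroup.mk_surjective x
    have hy : y ∈ zpowers g ⊔ commutator G := by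
      rw [sup_comm, hg]
      exact mem_top y
    rw [Subgroup.mem_sup_of_normal_right] at hy
    obtain ⟨z, hz, c, hc, rfl⟩ := hy
    obtain ⟨j, rfl⟩ := Subgroup.mem_zpowers_iff.1 hz
    rw [QuotientGroup.mk_mul, (QuotientGroup.eq_one_iff c).2 (hK hc), mul_one, QuotientGroup.mk_zpow]
    exact Subgroup.zpow_mem_zpowers _ _
  have h2 := orderOf_eq_card_of_forall_mem_zpowers h1
  rw [← Subgroup.index_eq_card] at h2
  rw [← QuotientGroup.eq_one_iff, QuotientGroup.mk_zpow, ← orderOf_dvd_iff_zpow_eq_one, h2]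

omit [Finite G] in
lemma le_iff_dvd {g : G} (hg : commutator G ⊔ zpowers g = ⊤) {K K' : Subgroup G}
    (hK : commutator G ≤ K) (hK' : commutator G ≤ K') : K ≤ K' ↔ K'.index ∣ K.index := by
  constructor
  · exact Subgroup.index_dvd_of_le
  · intro h x hx
    have hy : x ∈ zpowers g ⊔ commutator G := by
      rw [sup_comm, hg]
      exact mem_top x
    rw [Subgroup.mem_sup_of_normal_right] at hy
    obtain ⟨z, hz, c, hc, rfl⟩ := hy
    obtain ⟨j, rfl⟩ := Subgroup.mem_zpowers_iff.1 hz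
    have h1 : g ^ j ∈ K := by
      have := K.mul_mem hx (K.inv_mem (hK hc))
      rwa [mul_inv_cancel_right] at this
    rw [mem_iff_dvd hg hK] at h1
    have h2 : g ^ j ∈ K' := by
      rw [mem_iff_dvd hg hK']
      exact (Int.natCast_dvd_natCast.2 h).trans h1
    exact K'.mul_mem h2 (hK' hc)

end Pool.Agent.Helper72.LG
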