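import Mathlib

/-!
# Normal subgroups and one normal subgroup of prime order
-/

set_option autoImplicit false

namespace Pool.Agent.Helper72.LG

open Subgroup

variable {G : Type*} [Group G] [Finite G]

/-- `P` is a normal subgroup of prime order `p` and its index is prime to `p` -/
structure Lone (P : Subgroup G) (p : ℕ) : Prop where
  prime : p.Prime
  normal : P.Normal
  card : Nat.card P = p
  index : ¬ p ∣ P.index

omit [Finite G] in
lemma pow_card_mem {K : Subgroup G} {x : G} (hx : x ∈ K) : x ^ Nat.card K = 1 :=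
  (orderOf_dvd_iff_pow_eq_one).1 (by
    rw [← Subgroup.orderOf_mk x hx]
    exact orderOf_dvd_natCard _)

omit [Finite G] in
lemma Lone.mem_of_pow {P : Subgroup G} {p : ℕ} (h : Lone P p) {x : G} (hx : x ^ p = 1) : x ∈ P := by
  have := h.normal
  rw [← QuotientGroup.eq_one_iff]
  have h1 : (x : G ⧸ P) ^ p = 1 := by
    rw [← QuotientGroup.mk_pow, hx, QuotientGroup.mk_one]
  have h2 : (x : G ⧸ P) ^ P.index = 1 := by
    rw [Subgroup.index_eq_card]
    exact pow_card_eq_one'
  have h3 := pow_gcd_eq_one.2 ⟨h1, h2⟩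
  rwa [(Nat.Prime.coprime_iff_not_dvd h.prime).2 h.index, pow_one] at h3

lemma Lone.le_iff {P : Subgroup G} {p : ℕ} (h : Lone P p) (H : Subgroup G) :
    P ≤ H ↔ p ∣ Nat.card H := by
  constructor
  · intro h1
    rw [← h.card]
    exact Subgroup.card_dvd_of_le h1
  · intro h1
    have : Fact p.Prime := ⟨h.prime⟩
    obtain ⟨x, hx⟩ := exists_prime_orderOf_dvd_card' p h1
    have hx' : orderOf (x : G) = p := by
      rw [← hx]
      exact Subgroup.orderOf_coe x
    have h2 : (x : G) ∈ P := h.mem_of_pow (by rw [← hx']; exact pow_orderOf_eq_one _)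
    have h3 : zpowers (x : G) ≤ P := (Subgroup.zpowers_le).2 h2
    have h4 : zpowers (x : G) = P := by
      refine Subgroup.eq_of_le_of_card_ge h3 ?_
      rw [h.card, Nat.card_zpowers, hx']
    rw [← h4, Subgroup.zpowers_le]
    exact x.2

lemma Lone.disjoint {P : Subgroup G} {p : ℕ} (h : Lone P p) {N : Subgroup G} (hN : ¬ P ≤ N) :
    N ⊓ P = ⊥ := by
  refine (disjoint_iff.1 (Subgroup.disjoint_of_coprime_natCard ?_))
  rw [h.card, Nat.coprime_comm, Nat.Prime.coprime_iff_not_dvd h.prime]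
  rwa [← h.le_iff]

lemma Lone.le_centralizer {P : Subgroup G} {p : ℕ} (h : Lone P p) {N : Subgroup G} (hn : N.Normal)
    (hN : ¬ P ≤ N) : N ≤ centralizer (P : Set G) := by
  intro x hx
  rw [mem_centralizer_iff]
  intro y hy
  exact (commute_of_normal_of_disjoint P N h.normal hn
    ((disjoint_iff.2 (h.disjoint hN)).symm) y x hy hx)

omit [Finite G] in
lemma Lone.self_le {P : Subgroup G} {p : ℕ} (h : Lone P p) : P ≤ centralizer (P : Set G) := by
  have : Fact p.Prime := ⟨h.prime⟩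
  have : IsCyclic P := isCyclic_of_prime_card h.card
  intro x hx
  rw [mem_centralizer_iff]
  intro y hy
  obtain ⟨g, hg⟩ := IsCyclic.exists_generator (α := P)
  obtain ⟨i, hi⟩ := Subgroup.mem_zpowers_iff.1 (hg ⟨y, hy⟩)
  obtain ⟨j, hj⟩ := Subgroup.mem_zpowers_iff.1 (hg ⟨x, hx⟩)
  have h1 : y = (g : G) ^ i := by
    rw [← Subgroup.coe_zpow, hi]
  have h2 : x = (g : G) ^ j := by
    rw [← Subgroup.coe_zpow, hj]
  rw [h1, h2, ← zpow_add, ← zpow_add, add_comm]

omit [Finite G] in
lemma Lone.key {P : Subgroup G} {p : ℕ} (h : Lone P p) {K : Subgroup G}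
    (hK : K ≤ centralizer (P : Set G)) (hpK : ¬ p ∣ Nat.card K) {x : G} (hx : x ∈ K ⊔ P)
    (hxm : x ^ Nat.card K = 1) : x ∈ K := by
  have := h.normal
  rw [Subgroup.mem_sup_of_normal_right] at hx
  obtain ⟨y, hy, z, hz, rfl⟩ := hx
  have hc : Commute y z := by
    have := (mem_centralizer_iff.1 (hK hy)) z hz
    exact this.symm
  rw [hc.mul_pow] at hxm
  have h1 : y ^ Nat.card K = 1 := by
    exact pow_card_mem hy
  rw [h1, one_mul] at hxm
  have h2 : z ^ p = 1 := by
    rw [← h.card]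
    exact pow_card_mem hz
  have h3 := pow_gcd_eq_one.2 ⟨h2, hxm⟩
  rw [(Nat.Prime.coprime_iff_not_dvd h.prime).2 hpK, pow_one] at h3
  rw [h3, mul_one]
  exact hy

lemma Lone.card_sup {P : Subgroup G} {p : ℕ} (h : Lone P p) {N : Subgroup G} (hN : ¬ P ≤ N) :
    Nat.card (N ⊔ P : Subgroup G) = Nat.card N * p := by
  have := h.normal
  have h1 : P.relIndex (N ⊔ P) = P.relIndex N := Subgroup.relIndex_sup_right N P
  have h2 : Nat.card P * P.relIndex (N ⊔ P) = Nat.card (N ⊔ P : Subgroup G) := by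
    have h4 := Subgroup.relIndex_mul_relIndex ⊥ P (N ⊔ P) bot_le le_sup_right
    rwa [Subgroup.relIndex_bot_left, Subgroup.relIndex_bot_left] at h4
  have h3 : P.relIndex N = Nat.card N := by
    rw [← Subgroup.inf_relIndex_right, inf_comm, h.disjoint hN, Subgroup.relIndex_bot_left]
  rw [← h2, h1, h3, h.card, mul_comm]

lemma Lone.unique {P : Subgroup G} {p : ℕ} (h : Lone P p) {N N' : Subgroup G} (hn : N.Normal)
    (hN : ¬ P ≤ N) (hN' : ¬ P ≤ N') (he : N ⊔ P = N' ⊔ P) : N = N' := by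
  have hc : Nat.card N = Nat.card N' := by
    have h1 := h.card_sup hN
    have h2 := h.card_sup hN'
    rw [he, h2] at h1
    exact (Nat.eq_of_mul_eq_mul_right h.prime.pos h1).symm
  refine (Subgroup.eq_of_le_of_card_ge ?_ hc.le).symm
  intro x hx
  refine h.key (h.le_centralizer hn hN) (by rwa [← h.le_iff]) ?_ ?_
  · rw [he]
    exact (le_sup_left : N' ≤ N' ⊔ P) hx
  · rw [hc]
    exact pow_card_mem hx

lemma Lone.exists {P : Subgroup G} {p : ℕ} (h : Lone P p) {H : Subgroup G} (hn : H.Normal)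
    (hP : P ≤ H) (hH : H ≤ centralizer (P : Set G)) :
    ∃ N : Subgroup G, N.Normal ∧ ¬ P ≤ N ∧ N ⊔ P = H := by
  have hPn := h.normal
  have : (P.subgroupOf H).Normal := Subgroup.Normal.subgroupOf hPn H
  have hc1 : Nat.card (P.subgroupOf H) = p := by
    rw [← h.card]
    exact Nat.card_congr (Subgroup.subgroupOfEquivOfLe hP).toEquiv
  have hidx : ¬ p ∣ (P.subgroupOf H).index := by
    intro hd
    apply h.index
    have : P.relIndex H * H.index = P.index := Subgroup.relIndex_mul_index hP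
    rw [← this]
    exact Dvd.dvd.mul_right hd _
  obtain ⟨K, hK⟩ := Subgroup.exists_right_complement'_of_coprime (N := P.subgroupOf H)
    (by rw [hc1]; exact (Nat.Prime.coprime_iff_not_dvd h.prime).2 hidx)
  have hKc : Nat.card (P.subgroupOf H) * Nat.card K = Nat.card H := hK.card_mul_card
  set N : Subgroup G := K.map H.subtype with hNdef
  have hNH : N ≤ H := by
    rw [hNdef]
    exact Subgroup.map_subtype_le K
  have hNc : Nat.card N = Nat.card K := by
    rw [hNdef]
    exact Nat.card_congr (K.equivMapOfInjective H.subtype H.subtype_injective).toEquiv.symm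
  have hNi : ¬ p ∣ Nat.card N := by
    rw [hNc]
    have h1 : (P.subgroupOf H).index = Nat.card K := by
      have h2 := (P.subgroupOf H).card_mul_index
      rw [← hKc] at h2
      exact Nat.eq_of_mul_eq_mul_left Nat.card_pos h2
    rwa [← h1]
  have hPN : ¬ P ≤ N := by rwa [h.le_iff]
  have hsup : N ⊔ P = H := by
    refine Subgroup.eq_of_le_of_card_ge (sup_le hNH hP) ?_
    rw [h.card_sup hPN, hNc, ← hKc, hc1, mul_comm]
  refine ⟨N, ⟨fun x hx g => ?_⟩, hPN, hsup⟩
  refine h.key (hNH.trans hH) hNi ?_ ?_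
  · rw [hsup]
    exact hn.conj_mem x (hNH hx) g
  · rw [conj_pow]
    have : x ^ Nat.card N = 1 := by
      exact pow_card_mem hx
    rw [this]
    simp

/-- fibres of `N ↦ N ⊔ P` on the normal subgroups without `P` -/
lemma Lone.sum_not_le {P : Subgroup G} {p : ℕ} (h : Lone P p) (f : Subgroup G → ℝ)
    (S S' : Finset (Subgroup G)) (hS : ∀ N, N ∈ S ↔ N.Normal ∧ ¬ P ≤ N)
    (hS' : ∀ H, H ∈ S' ↔ H.Normal ∧ P ≤ H ∧ H ≤ centralizer (P : Set G))
    (hf : ∀ N : Subgroup G, N.Normal → f (N ⊔ P) = f N) :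
    ∑ N ∈ S, f N * Nat.card N = ∑ H ∈ S', f H * Nat.card H * (1 / (p : ℝ)) := by
  have hPn := h.normal
  refine Finset.sum_bij (fun N _ => N ⊔ P) ?_ ?_ ?_ ?_
  · intro N hN
    rw [hS] at hN
    rw [hS']
    have := hN.1
    exact ⟨inferInstance, le_sup_right, sup_le (h.le_centralizer hN.1 hN.2) h.self_le⟩
  · intro N hN N' hN' he
    rw [hS] at hN hN'
    exact h.unique hN.1 hN.2 hN'.2 he
  · intro H hH
    rw [hS'] at hH
    obtain ⟨N, h1, h2, h3⟩ := h.exists hH.1 hH.2.1 hH.2.2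
    exact ⟨N, (hS N).2 ⟨h1, h2⟩, h3⟩
  · intro N hN
    rw [hS] at hN
    have hp : (p : ℝ) ≠ 0 := by exact_mod_cast h.prime.ne_zero
    rw [hf N hN.1, h.card_sup hN.2]
    push_cast
    field_simp

end Pool.Agent.Helper72.LG
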