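import Pool.Agent.Helper72.LG.Main

/-!
# The counting function of the orders
-/

set_option autoImplicit false

namespace Pool.Agent.Helper72.LG

open Subgroup Finset

/-- the typical part -/
lemma good_part (e R : ℕ) : ∃ s₀ : ℕ, ∀ s, s₀ ≤ s → ∀ N : ℕ, 2 ^ (s ^ 8) ≤ N →
    ∀ r : ℝ, r ≤ R → ∀ A : Finset ℕ,
      (∀ n ∈ A, n ∈ Ioc 0 N ∧ IsOrd r n ∧ N < n * s ^ e ∧ (∀ b, s ^ e < b → ¬ b ^ 2 ∣ n) ∧
        (∀ p, s ^ (e + 8) < p → p.Prime → p ∣ n → ∀ c, c ∣ n → c ≡ 1 [MOD p] → c = 1) ∧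
        (n.primeFactors.filter (fun p => p ≤ s ^ (e + 8))).card ≤ Nat.log 2 s ∧
        n.primeFactors.card ≤ s ^ 2) → A.card * s ^ e ≤ N := by
  classical
  obtain ⟨x₀, hx₀⟩ := Pool.Agent.Helper73.RK.card_divisors_le (2 * e)
  refine ⟨max x₀ (R + 4 * e + 13), fun s hs N hN r hr A hA => ?_⟩
  have hsx : x₀ ≤ s := (le_max_left _ _).trans hs
  have hsR : R + 4 * e + 13 ≤ s := (le_max_right _ _).trans hs
  have hs1 : 1 ≤ s := by omega
  have h2s : s < 2 ^ s := Nat.lt_two_pow_self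
  set z := s ^ (e + 8) with hz
  set w := Nat.log 2 s with hw
  have hws : 2 ^ w ≤ s := Nat.pow_log_le_self 2 (by omega)
  have hw_s : w ≤ s := by
    have : w < 2 ^ w := Nat.lt_two_pow_self
    omega
  have hz1 : 1 ≤ z := Nat.one_le_pow _ _ hs1
  have hBz : s ^ e ≤ z := Nat.pow_le_pow_right hs1 (by omega)
  have hτ : ∀ b, 1 ≤ b → b ≤ s ^ e → (b ^ 2).divisors.card ≤ s := by
    intro b hb hb'
    refine hx₀ s hsx (b ^ 2) (by positivity) ?_
    calc b ^ 2 ≤ (s ^ e) ^ 2 := Nat.pow_le_pow_left hb' 2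
      _ = s ^ (2 * e) := by rw [← pow_mul, mul_comm]
  -- every good number is large
  have hn2 : ∀ n ∈ A, 2 ≤ n := by
    intro n hn
    obtain ⟨h1, -, h3, -⟩ := hA n hn
    by_contra hlt
    have hn1 : n ≤ 1 := by omega
    have h4 : n * s ^ e ≤ 2 ^ (s ^ 8) := by
      calc n * s ^ e ≤ 1 * (2 ^ s) ^ e := Nat.mul_le_mul hn1 (Nat.pow_le_pow_left h2s.le _)
        _ = 2 ^ (s * e) := by rw [one_mul, ← pow_mul]
        _ ≤ 2 ^ (s ^ 8) := by
            refine Nat.pow_le_pow_right (by norm_num) ?_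
            calc s * e ≤ s * s := Nat.mul_le_mul_left _ (by omega)
              _ = s ^ 2 := by ring
              _ ≤ s ^ 8 := Nat.pow_le_pow_right hs1 (by norm_num)
    omega
  have hpm : ∀ n ∈ A, 2 ^ (s ^ 5) ≤ pm n := by
    intro n hn
    obtain ⟨h1, -, h3, h4, -, -, h7⟩ := hA n hn
    by_contra hlt
    push Not at hlt
    have h5 := le_pm_pow (hn2 n hn) h4 h7
    have h6 : n * s ^ e ≤ 2 ^ (s ^ 8) := by
      calc n * s ^ e ≤ ((s ^ e) ^ 2 * (2 ^ (s ^ 5)) ^ (s ^ 2)) * s ^ e := by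
            refine Nat.mul_le_mul_right _ (h5.trans (Nat.mul_le_mul_left _ ?_))
            exact Nat.pow_le_pow_left hlt.le _
        _ = s ^ (3 * e) * 2 ^ (s ^ 7) := by
            rw [← pow_mul, ← pow_mul]
            ring
        _ ≤ (2 ^ s) ^ (3 * e) * 2 ^ (s ^ 7) := Nat.mul_le_mul_right _ (Nat.pow_le_pow_left h2s.le _)
        _ = 2 ^ (s * (3 * e) + s ^ 7) := by rw [← pow_mul, ← pow_add]
        _ ≤ 2 ^ (s ^ 8) := by
            refine Nat.pow_le_pow_right (by norm_num) ?_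
            have a1 : s ≤ s ^ 7 := by
              calc s = s ^ 1 := (pow_one s).symm
                _ ≤ s ^ 7 := Nat.pow_le_pow_right hs1 (by norm_num)
            calc s * (3 * e) + s ^ 7 ≤ s ^ 7 * (3 * e) + s ^ 7 :=
                  Nat.add_le_add_right (Nat.mul_le_mul_right _ a1) _
              _ = s ^ 7 * (3 * e + 1) := by ring
              _ ≤ s ^ 7 * s := Nat.mul_le_mul_left _ (by omega)
              _ = s ^ 8 := by ring
    omega
  have hzy : z < 2 ^ (s ^ 5) := by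
    calc z ≤ (2 ^ s) ^ (e + 8) := Nat.pow_le_pow_left h2s.le _
      _ = 2 ^ (s * (e + 8)) := by rw [← pow_mul]
      _ < 2 ^ (s ^ 5) := by
          refine Nat.pow_lt_pow_right (by norm_num) ?_
          calc s * (e + 8) < s * s := Nat.mul_lt_mul_of_pos_left (by omega) hs1
            _ = s ^ 2 := by ring
            _ ≤ s ^ 5 := Nat.pow_le_pow_right hs1 (by norm_num)
  set Ms := (Ioc 0 (N / 2 ^ (s ^ 5))).filter (fun μ => (cof z μ).divisors.card ≤ s * s ∧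
    cof z μ ≤ s ^ (2 * e) * z ^ s ∧ cof z μ ≠ 0 ∧ (Sz z μ).card ≤ s * s) with hMs
  have hcount := count (Gd := A) (Ms := Ms) (m := fun n => n / pm n) (p := pm) (kf := cof z)
    (Sf := Sz z) (R := R) (r := r) (T := s * s) (K := s ^ (2 * e) * z ^ s)
    (Nat.mul_pos hs1 hs1) (by
      intro n hn
      obtain ⟨h1, h2, h3, h4, h5, h6, h7⟩ := hA n hn
      rw [mem_Ioc] at h1
      have hn2' := hn2 n hn
      have hpm' := hpm n hn
      have hzpm : z < pm n := lt_of_lt_of_le hzy hpm'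
      have hsq : ∀ p, z < p → p.Prime → ¬ p ^ 2 ∣ n := fun p hp _ => h4 p (lt_of_le_of_lt hBz hp)
      obtain ⟨r1, r2, r3, r4⟩ := remove hn2' hzpm hsq
      have hpm0 : 0 < pm n := lt_of_le_of_lt (Nat.zero_le _) hzpm
      have hm0 : 0 < n / pm n := by
        rcases Nat.eq_zero_or_pos (n / pm n) with h | h
        · rw [h, zero_mul] at r1
          omega
        · exact h
      refine ⟨r1, r2, hpm0, ?_, exists_code_of_isOrd hr hn2' h2 hzpm hsq h5⟩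
      rw [hMs, mem_filter, mem_Ioc]
      obtain ⟨c1, c2⟩ := cof_bounds (z := z) (n := n) (B := s ^ e) (w := w) (s := s) (by omega) hz1
        hBz h4 h6 hws hτ
      refine ⟨⟨hm0, ?_⟩, ?_, ?_, ?_, ?_⟩
      · exact (Nat.div_le_div_right h1.2).trans (Nat.div_le_div_left hpm' (by positivity))
      · rw [r4]
        exact c1
      · rw [r4]
        refine c2.trans (Nat.mul_le_mul (le_of_eq ?_) (Nat.pow_le_pow_right hz1 hw_s))
        rw [← pow_mul, mul_comm]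
      · rw [r4]
        exact cof_ne_zero z (by omega)
      · have h8 : Sz z (n / pm n) ⊆ n.primeFactors := by
          refine (Finset.subset_insert (pm n) _).trans ?_
          rw [r3]
          exact filter_subset _ _
        refine (card_le_card h8).trans (h7.trans (le_of_eq ?_))
        ring)
    (by
      intro μ hμ
      rw [hMs, mem_filter] at hμ
      exact hμ.2)
  have hMc : Ms.card ≤ N / 2 ^ (s ^ 5) := by
    calc Ms.card ≤ (Ioc 0 (N / 2 ^ (s ^ 5))).card := card_le_card (filter_subset _ _)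
      _ = _ := by rw [Nat.card_Ioc, Nat.sub_zero]
  calc A.card * s ^ e ≤ (N / 2 ^ (s ^ 5) * ((R * (s ^ (2 * e) * z ^ s) + 1) ^ (s * s) *
        ((s * s) ^ (s * s) * (s * s)))) * s ^ e :=
        Nat.mul_le_mul_right _ (hcount.trans (Nat.mul_le_mul_right _ hMc))
    _ = N / 2 ^ (s ^ 5) * ((R * (s ^ (2 * e) * z ^ s) + 1) ^ (s * s) *
        ((s * s) ^ (s * s) * (s * s)) * s ^ e) := by ring
    _ ≤ N / 2 ^ (s ^ 5) * 2 ^ (s ^ 5) := Nat.mul_le_mul_left _ (code_size hsR)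
    _ ≤ N := Nat.div_mul_le_self _ _

/-- the counting theorem in the parameter `s` -/
theorem main_nat (e R : ℕ) : ∃ C : ℝ, 0 ≤ C ∧ ∃ s₀ : ℕ, 1 ≤ s₀ ∧ ∀ s, s₀ ≤ s → ∀ N : ℕ,
    2 ^ (s ^ 8) ≤ N → N < 2 ^ ((s + 1) ^ 8) → ∀ r : ℝ, r ≤ R → ∀ A : Finset ℕ,
      (∀ n ∈ A, n ∈ Ioc 0 N ∧ IsOrd r n) → (A.card : ℝ) * (s : ℝ) ^ e ≤ C * N := by
  classical
  obtain ⟨s₁, hs₁⟩ := good_part e R
  obtain ⟨C₄, hC₄, h₄⟩ := Pool.GDS.prod_le_rpow (k := ((2 ^ (2 * e + 8) : ℕ) : ℝ)) (δ := 1)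
    (Nat.cast_nonneg _) zero_lt_one
  refine ⟨1 + 1 + 257 + C₄ + 257 + 1, by positivity, max s₁ (e + 9),
    le_trans (by omega) (le_max_right _ _), fun s hs N hN hN' r hr A hA => ?_⟩
  have hss₁ : s₁ ≤ s := (le_max_left _ _).trans hs
  have hse : e + 9 ≤ s := (le_max_right _ _).trans hs
  have hs1 : 1 ≤ s := by omega
  have hsR : (1 : ℝ) ≤ s := by exact_mod_cast hs1
  have hs0 : (0 : ℝ) < s := by linarith
  have hN1 : 1 ≤ N := le_trans Nat.one_le_two_pow hN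
  have hNR : (0 : ℝ) ≤ N := Nat.cast_nonneg _
  have h2s : s < 2 ^ s := Nat.lt_two_pow_self
  have hlog := log_le_of_lt hs1 hN1 hN'
  set A₁ := A.filter (fun n => n * s ^ e ≤ N) with hA₁
  set A₂ := A.filter (fun n => ∃ b, s ^ e < b ∧ b ^ 2 ∣ n) with hA₂
  set A₃ := A.filter (fun n => ∃ p, s ^ (e + 8) < p ∧ p.Prime ∧ p ∣ n ∧
    ∃ c, c ∣ n ∧ c ≡ 1 [MOD p] ∧ c ≠ 1) with hA₃
  set A₄ := A.filter (fun n => Nat.log 2 s < (n.primeFactors.filter (fun p => p ≤ s ^ (e + 8))).card)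
    with hA₄
  set A₅ := A.filter (fun n => s ^ 2 < n.primeFactors.card) with hA₅
  set A₆ := A \ (A₁ ∪ A₂ ∪ A₃ ∪ A₄ ∪ A₅) with hA₆
  have hcov : A.card ≤ A₁.card + A₂.card + A₃.card + A₄.card + A₅.card + A₆.card := by
    have h1 : A ⊆ (A₁ ∪ A₂ ∪ A₃ ∪ A₄ ∪ A₅) ∪ A₆ := by
      intro n hn
      by_cases h : n ∈ A₁ ∪ A₂ ∪ A₃ ∪ A₄ ∪ A₅
      · exact mem_union_left _ h
      · exact mem_union_right _ (mem_sdiff.2 ⟨hn, h⟩)
    refine (card_le_card h1).trans ?_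
    have u1 := card_union_le (A₁ ∪ A₂ ∪ A₃ ∪ A₄ ∪ A₅) A₆
    have u2 := card_union_le (A₁ ∪ A₂ ∪ A₃ ∪ A₄) A₅
    have u3 := card_union_le (A₁ ∪ A₂ ∪ A₃) A₄
    have u4 := card_union_le (A₁ ∪ A₂) A₃
    have u5 := card_union_le A₁ A₂
    omega
  have b1 : (A₁.card : ℝ) * (s : ℝ) ^ e ≤ 1 * N := by
    have := bad1 N (s ^ e) A₁ (fun n hn => ⟨(hA n (mem_filter.1 hn).1).1, (mem_filter.1 hn).2⟩)
    rw [one_mul]
    exact_mod_cast this
  have b2 : (A₂.card : ℝ) * (s : ℝ) ^ e ≤ 1 * N := by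
    have := bad2 N (s ^ e) (Nat.one_le_pow _ _ hs1) A₂
      (fun n hn => ⟨(hA n (mem_filter.1 hn).1).1, (mem_filter.1 hn).2⟩)
    rw [one_mul]
    push_cast at this
    exact this
  have b3 : (A₃.card : ℝ) * (s : ℝ) ^ e ≤ 257 * N := by
    have h1 := bad3 N (s ^ (e + 8)) (Nat.one_le_pow _ _ hs1) A₃
      (fun n hn => ⟨(hA n (mem_filter.1 hn).1).1, (mem_filter.1 hn).2⟩)
    push_cast at h1
    have h2 : (A₃.card : ℝ) * (s : ℝ) ^ e * (s : ℝ) ^ 8 ≤ 257 * N * (s : ℝ) ^ 8 := by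
      calc (A₃.card : ℝ) * (s : ℝ) ^ e * (s : ℝ) ^ 8 = (A₃.card : ℝ) * (s : ℝ) ^ (e + 8) := by ring
        _ ≤ N * (1 + Real.log N) := h1
        _ ≤ N * (257 * (s : ℝ) ^ 8) := mul_le_mul_of_nonneg_left hlog hNR
        _ = _ := by ring
    exact le_of_mul_le_mul_right h2 (by positivity)
  have b4 : (A₄.card : ℝ) * (s : ℝ) ^ e ≤ C₄ * N := by
    have h1 := bad4 N (s ^ (e + 8)) (Nat.log 2 s) (2 ^ (2 * e + 8)) Nat.one_le_two_pow A₄
      (fun n hn => ⟨(hA n (mem_filter.1 hn).1).1, (mem_filter.1 hn).2⟩)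
    have h2 := h₄ (s ^ (e + 8)) (Nat.one_le_pow _ _ hs1)
    rw [Real.rpow_one] at h2
    have h3 : (s : ℝ) ^ (2 * e + 8) ≤ (((2 ^ (2 * e + 8) : ℕ) : ℝ)) ^ (Nat.log 2 s + 1) := by
      have h4 : s ^ (2 * e + 8) ≤ (2 ^ (2 * e + 8)) ^ (Nat.log 2 s + 1) := by
        calc s ^ (2 * e + 8) ≤ (2 ^ (Nat.log 2 s + 1)) ^ (2 * e + 8) :=
              Nat.pow_le_pow_left (Nat.lt_pow_succ_log_self (by norm_num) s).le _
          _ = _ := by rw [← pow_mul, ← pow_mul, mul_comm]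
      exact_mod_cast h4
    have h5 : (A₄.card : ℝ) * (s : ℝ) ^ e * (s : ℝ) ^ (e + 8) ≤ C₄ * N * (s : ℝ) ^ (e + 8) := by
      calc (A₄.card : ℝ) * (s : ℝ) ^ e * (s : ℝ) ^ (e + 8) = (A₄.card : ℝ) * (s : ℝ) ^ (2 * e + 8) := by
            ring
        _ ≤ (A₄.card : ℝ) * (((2 ^ (2 * e + 8) : ℕ) : ℝ)) ^ (Nat.log 2 s + 1) :=
            mul_le_mul_of_nonneg_left h3 (Nat.cast_nonneg _)
        _ ≤ N * ∏ p ∈ Pool.GDS.prs (s ^ (e + 8)), (1 + (((2 ^ (2 * e + 8) : ℕ) : ℝ)) / p) := h1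
        _ ≤ N * (C₄ * ((s ^ (e + 8) : ℕ) : ℝ)) := mul_le_mul_of_nonneg_left h2 hNR
        _ = _ := by
            push_cast
            ring
    exact le_of_mul_le_mul_right h5 (by positivity)
  have b5 : (A₅.card : ℝ) * (s : ℝ) ^ e ≤ 257 * N := by
    have h1 := bad5 N (s ^ 2) A₅
      (fun n hn => ⟨(hA n (mem_filter.1 hn).1).1, (mem_filter.1 hn).2⟩)
    have h2 : (s : ℝ) ^ e * (s : ℝ) ^ 8 ≤ (2 : ℝ) ^ (s ^ 2) := by
      have h3 : s ^ e * s ^ 8 ≤ 2 ^ (s ^ 2) := by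
        calc s ^ e * s ^ 8 = s ^ (e + 8) := by rw [pow_add]
          _ ≤ (2 ^ s) ^ (e + 8) := Nat.pow_le_pow_left h2s.le _
          _ = 2 ^ (s * (e + 8)) := by rw [← pow_mul]
          _ ≤ 2 ^ (s ^ 2) := by
              refine Nat.pow_le_pow_right (by norm_num) ?_
              calc s * (e + 8) ≤ s * s := Nat.mul_le_mul_left _ (by omega)
                _ = s ^ 2 := by ring
      exact_mod_cast h3
    have h5 : (A₅.card : ℝ) * (s : ℝ) ^ e * (s : ℝ) ^ 8 ≤ 257 * N * (s : ℝ) ^ 8 := by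
      calc (A₅.card : ℝ) * (s : ℝ) ^ e * (s : ℝ) ^ 8 = (A₅.card : ℝ) * ((s : ℝ) ^ e * (s : ℝ) ^ 8) := by
            ring
        _ ≤ (A₅.card : ℝ) * (2 : ℝ) ^ (s ^ 2) := mul_le_mul_of_nonneg_left h2 (Nat.cast_nonneg _)
        _ ≤ N * (1 + Real.log N) := h1
        _ ≤ N * (257 * (s : ℝ) ^ 8) := mul_le_mul_of_nonneg_left hlog hNR
        _ = _ := by ring
    exact le_of_mul_le_mul_right h5 (by positivity)
  have b6 : (A₆.card : ℝ) * (s : ℝ) ^ e ≤ 1 * N := by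
    have h1 := hs₁ s hss₁ N hN r hr A₆ (by
      intro n hn
      rw [hA₆, mem_sdiff] at hn
      obtain ⟨hnA, hnn⟩ := hn
      simp only [mem_union, not_or] at hnn
      obtain ⟨⟨⟨⟨n1, n2⟩, n3⟩, n4⟩, n5⟩ := hnn
      have hA' := hA n hnA
      refine ⟨hA'.1, hA'.2, ?_, ?_, ?_, ?_, ?_⟩
      · by_contra h
        exact n1 (mem_filter.2 ⟨hnA, not_lt.1 h⟩)
      · intro b hb hbn
        exact n2 (mem_filter.2 ⟨hnA, b, hb, hbn⟩)
      · intro p hp hpp hpn c hc hc1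
        by_contra h
        exact n3 (mem_filter.2 ⟨hnA, p, hp, hpp, hpn, c, hc, hc1, h⟩)
      · by_contra h
        exact n4 (mem_filter.2 ⟨hnA, not_le.1 h⟩)
      · by_contra h
        exact n5 (mem_filter.2 ⟨hnA, not_le.1 h⟩))
    rw [one_mul]
    exact_mod_cast h1
  have hcov' : (A.card : ℝ) ≤ A₁.card + A₂.card + A₃.card + A₄.card + A₅.card + A₆.card := by
    exact_mod_cast hcov
  calc (A.card : ℝ) * (s : ℝ) ^ e ≤
      (A₁.card + A₂.card + A₃.card + A₄.card + A₅.card + A₆.card) * (s : ℝ) ^ e :=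
        mul_le_mul_of_nonneg_right hcov' (by positivity)
    _ = A₁.card * (s : ℝ) ^ e + A₂.card * (s : ℝ) ^ e + A₃.card * (s : ℝ) ^ e +
        A₄.card * (s : ℝ) ^ e + A₅.card * (s : ℝ) ^ e + A₆.card * (s : ℝ) ^ e := by ring
    _ ≤ 1 * N + 1 * N + 257 * N + C₄ * N + 257 * N + 1 * N := by
        linarith
    _ = _ := by ring

end Pool.Agent.Helper72.LG
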