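import Pool.Agent.Helper72.LG.NT

/-!
# Arithmetic of typical numbers
-/

set_option autoImplicit false

namespace Pool.Agent.Helper72.LG

open Finset

/-- the prime factors above `z` -/
def Sz (z n : ℕ) : Finset ℕ := n.primeFactors.filter (fun p => z < p)

/-- the cofactor -/
def cof (z n : ℕ) : ℕ := n / ∏ p ∈ Sz z n, p

/-- the largest prime factor -/
def pm (n : ℕ) : ℕ := n.primeFactors.sup id

lemma mem_Sz {z n p : ℕ} (hn : n ≠ 0) : p ∈ Sz z n ↔ p.Prime ∧ p ∣ n ∧ z < p := by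
  unfold Sz
  rw [mem_filter, Nat.mem_primeFactors]
  tauto

lemma prod_Sz_dvd (z : ℕ) {n : ℕ} (hn : n ≠ 0) : ∏ p ∈ Sz z n, p ∣ n :=
  Finset.prod_primes_dvd _ (fun _ hp => ((mem_Sz hn).1 hp).1.prime) (fun _ hp => ((mem_Sz hn).1 hp).2.1)

lemma prod_Sz_pos (z : ℕ) {n : ℕ} (hn : n ≠ 0) : 0 < ∏ p ∈ Sz z n, p :=
  Finset.prod_pos fun _ hp => ((mem_Sz hn).1 hp).1.pos

lemma eq_cof_mul (z : ℕ) {n : ℕ} (hn : n ≠ 0) : n = cof z n * ∏ p ∈ Sz z n, p :=
  (Nat.div_mul_cancel (prod_Sz_dvd z hn)).symm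

lemma cof_dvd (z : ℕ) {n : ℕ} (hn : n ≠ 0) : cof z n ∣ n := Nat.div_dvd_of_dvd (prod_Sz_dvd z hn)

lemma cof_ne_zero (z : ℕ) {n : ℕ} (hn : n ≠ 0) : cof z n ≠ 0 := by
  intro h
  apply hn
  rw [eq_cof_mul z hn, h, zero_mul]

lemma prime_le_of_dvd_cof {z n q : ℕ} (hn : n ≠ 0) (hsq : ∀ p, z < p → p.Prime → ¬ p ^ 2 ∣ n)
    (hq : q.Prime) (hqc : q ∣ cof z n) : q ≤ z := by
  by_contra h
  push Not at h
  have h1 : q ∈ Sz z n := (mem_Sz hn).2 ⟨hq, hqc.trans (cof_dvd z hn), h⟩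
  have h2 : q * q ∣ n := by
    conv_rhs => rw [eq_cof_mul z hn]
    exact Nat.mul_dvd_mul hqc (Finset.dvd_prod_of_mem (fun p => p) h1)
  exact hsq q h hq (by rwa [sq])

lemma pm_mem {n : ℕ} (hn : 2 ≤ n) : pm n ∈ n.primeFactors := by
  have h1 : n.primeFactors.Nonempty := Nat.nonempty_primeFactors.2 (by omega)
  obtain ⟨p, hp, h⟩ := Finset.exists_mem_eq_sup n.primeFactors h1 id
  unfold pm
  rw [h]
  exact hp

lemma le_pm {n p : ℕ} (hp : p ∈ n.primeFactors) : p ≤ pm n := Finset.le_sup (f := id) hp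

/-- removing the largest prime -/
lemma remove {z n : ℕ} (hn : 2 ≤ n) (hz : z < pm n) (hsq : ∀ p, z < p → p.Prime → ¬ p ^ 2 ∣ n) :
    n = n / pm n * pm n ∧ pm n ∉ Sz z (n / pm n) ∧ insert (pm n) (Sz z (n / pm n)) = Sz z n ∧
      cof z (n / pm n) = cof z n := by
  have hn0 : n ≠ 0 := by omega
  have hp := pm_mem hn
  rw [Nat.mem_primeFactors] at hp
  have h1 : n = n / pm n * pm n := (Nat.div_mul_cancel hp.2.1).symm
  have hm0 : n / pm n ≠ 0 := by
    intro h
    rw [h, zero_mul] at h1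
    exact hn0 h1
  have h2 : ¬ pm n ∣ n / pm n := by
    intro h
    apply hsq (pm n) hz hp.1
    rw [sq]
    conv_rhs => rw [h1]
    exact Nat.mul_dvd_mul_right h _
  have h3 : pm n ∉ Sz z (n / pm n) := fun h => h2 ((mem_Sz hm0).1 h).2.1
  have h4 : insert (pm n) (Sz z (n / pm n)) = Sz z n := by
    ext q
    rw [mem_insert, mem_Sz hm0, mem_Sz hn0]
    constructor
    · rintro (h | ⟨h5, h6, h7⟩)
      · rw [h]
        exact ⟨hp.1, hp.2.1, hz⟩
      · exact ⟨h5, h6.trans (Nat.div_dvd_of_dvd hp.2.1), h7⟩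
    · rintro ⟨h5, h6, h7⟩
      by_cases hq : q = pm n
      · exact Or.inl hq
      · right
        refine ⟨h5, ?_, h7⟩
        rw [h1] at h6
        rcases (Nat.Prime.dvd_mul h5).1 h6 with h | h
        · exact h
        · exact absurd ((Nat.prime_dvd_prime_iff_eq h5 hp.1).1 h) hq
  refine ⟨h1, h3, h4, ?_⟩
  unfold cof
  rw [← h4, prod_insert h3, Nat.div_div_eq_div_mul]

/-- the number of divisors and the size of the cofactor -/
lemma cof_bounds {z n B w s : ℕ} (hn : n ≠ 0) (hz : 1 ≤ z) (hBz : B ≤ z)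
    (hsq : ∀ b, B < b → ¬ b ^ 2 ∣ n) (hw : (n.primeFactors.filter (fun p => p ≤ z)).card ≤ w)
    (hws : 2 ^ w ≤ s) (hτ : ∀ b, 1 ≤ b → b ≤ B → (b ^ 2).divisors.card ≤ s) :
    (cof z n).divisors.card ≤ s * s ∧ cof z n ≤ B ^ 2 * z ^ w := by
  have hsq' : ∀ p, z < p → p.Prime → ¬ p ^ 2 ∣ n := fun p hp _ => hsq p (lt_of_le_of_lt hBz hp)
  set k := cof z n with hk
  have hk0 : k ≠ 0 := cof_ne_zero z hn
  obtain ⟨a, b, hab, ha⟩ := Nat.sq_mul_squarefree k
  have hb0 : b ≠ 0 := by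
    rintro rfl
    apply hk0
    rw [← hab]
    simp
  have hbB : b ≤ B := by
    by_contra h
    push Not at h
    refine hsq b h ?_
    have : b ^ 2 ∣ k := ⟨a, hab.symm⟩
    exact this.trans (cof_dvd z hn)
  have hak : a ∣ k := ⟨b ^ 2, by rw [← hab, mul_comm]⟩
  have hsub : a.primeFactors ⊆ n.primeFactors.filter (fun p => p ≤ z) := by
    intro q hq
    rw [Nat.mem_primeFactors] at hq
    rw [mem_filter, Nat.mem_primeFactors]
    have h1 : q ∣ k := hq.2.1.trans hak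
    exact ⟨⟨hq.1, h1.trans (cof_dvd z hn), hn⟩, prime_le_of_dvd_cof hn hsq' hq.1 h1⟩
  have hcard : a.primeFactors.card ≤ w := (card_le_card hsub).trans hw
  constructor
  · have h1 : k.divisors.card ≤ (b ^ 2).divisors.card * a.divisors.card := by
      rw [← hab, Nat.divisors_mul]
      exact Finset.card_mul_le
    have h2 : a.divisors.card ≤ s := by
      have h3 : a.divisors.card = 2 ^ a.primeFactors.card := by
        rw [Nat.card_divisors ha.ne_zero, ← prod_const]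
        refine prod_congr rfl fun p hp => ?_
        have h4 := ha.natFactorization_le_one p
        have h5 : 0 < a.factorization p :=
          (Nat.prime_of_mem_primeFactors hp).factorization_pos_of_dvd ha.ne_zero
            (Nat.dvd_of_mem_primeFactors hp)
        omega
      rw [h3]
      exact (Nat.pow_le_pow_right (by norm_num) hcard).trans hws
    exact h1.trans (Nat.mul_le_mul (hτ b (Nat.one_le_iff_ne_zero.2 hb0) hbB) h2)
  · rw [← hab]
    refine Nat.mul_le_mul (Nat.pow_le_pow_left hbB 2) ?_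
    rw [← Nat.prod_primeFactors_of_squarefree ha]
    calc ∏ p ∈ a.primeFactors, p ≤ ∏ _p ∈ a.primeFactors, z :=
          prod_le_prod' fun p hp => (mem_filter.1 (hsub hp)).2
      _ = z ^ a.primeFactors.card := prod_const _
      _ ≤ z ^ w := Nat.pow_le_pow_right hz hcard

/-- a number is small if its largest prime factor is small -/
lemma le_pm_pow {n B W : ℕ} (hn : 2 ≤ n) (hsq : ∀ b, B < b → ¬ b ^ 2 ∣ n)
    (hW : n.primeFactors.card ≤ W) : n ≤ B ^ 2 * pm n ^ W := by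
  have hn0 : n ≠ 0 := by omega
  obtain ⟨a, b, hab, ha⟩ := Nat.sq_mul_squarefree n
  have hbB : b ≤ B := by
    by_contra h
    push Not at h
    exact hsq b h ⟨a, hab.symm⟩
  have han : a ∣ n := ⟨b ^ 2, by rw [← hab, mul_comm]⟩
  have hsub : a.primeFactors ⊆ n.primeFactors := Nat.primeFactors_mono han hn0
  have hpm : 0 < pm n := (Nat.prime_of_mem_primeFactors (pm_mem hn)).pos
  calc n = b ^ 2 * a := hab.symm
    _ ≤ B ^ 2 * pm n ^ W := by
      refine Nat.mul_le_mul (Nat.pow_le_pow_left hbB 2) ?_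
      rw [← Nat.prod_primeFactors_of_squarefree ha]
      calc ∏ p ∈ a.primeFactors, p ≤ ∏ _p ∈ a.primeFactors, pm n :=
            prod_le_prod' fun p hp => le_pm (hsub hp)
        _ = pm n ^ a.primeFactors.card := prod_const _
        _ ≤ pm n ^ W := Nat.pow_le_pow_right hpm ((card_le_card hsub).trans hW)

end Pool.Agent.Helper72.LG
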