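import Pool.Agent.Helper72.LG.Syl
import Pool.Agent.Helper72.LG.Count
import Pool.Agent.Helper72.LG.Good
import Pool.Agent.Helper73.RK.DivBound

/-!
# The orders of groups with a given ratio of the sum of the orders of the normal subgroups
-/

set_option autoImplicit false

namespace Pool.Agent.Helper72.LG

open Subgroup Finset

open scoped Classical in
/-- `n` is the order of a finite group `G` whose normal subgroups have orders with sum `r n`, where
`r ≤ 2` or the abelianisation of `G` is cyclic -/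
def IsOrd (r : ℝ) (n : ℕ) : Prop :=
  ∃ (G : Type) (_ : Group G) (_ : Fintype G), Fintype.card G = n ∧
    (r ≤ 2 ∨ IsCyclic (Abelianization G)) ∧
    ∑ H : {H : Subgroup G // H.Normal}, (Nat.card H : ℝ) = r * n

lemma sum_subtype (G : Type*) [Group G] [Finite G] [Fintype {H : Subgroup G // H.Normal}] :
    ∑ H : {H : Subgroup G // H.Normal}, (Nat.card H : ℝ) = ∑ H ∈ nsg G, (Nat.card H : ℝ) := by
  rw [← Finset.sum_subtype (nsg G) (p := fun H : Subgroup G => H.Normal) (fun H => mem_nsg)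
    (fun H => (Nat.card H : ℝ))]

lemma generator_of_isCyclic {G : Type*} [Group G] (h : IsCyclic (Abelianization G)) :
    ∃ g : G, commutator G ⊔ zpowers g = ⊤ := by
  obtain ⟨x, hx⟩ := h.exists_generator
  obtain ⟨g, rfl⟩ := QuotientGroup.mk_surjective x
  refine ⟨g, ?_⟩
  rw [eq_top_iff]
  intro y _
  obtain ⟨i, hi⟩ := Subgroup.mem_zpowers_iff.1 (hx (QuotientGroup.mk y))
  have h1 : (g ^ i)⁻¹ * y ∈ commutator G := by
    rw [← QuotientGroup.eq, QuotientGroup.mk_zpow]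
    exact hi
  rw [sup_comm, Subgroup.mem_sup_of_normal_right]
  exact ⟨g ^ i, Subgroup.zpow_mem_zpowers _ _, _, h1, by group⟩

/-- the order of a group has a code if it is a typical number -/
lemma exists_code_of_isOrd {R : ℕ} {r : ℝ} (hr : r ≤ R) {n z : ℕ} (hn : 2 ≤ n) (h : IsOrd r n)
    (hz : z < pm n) (hsq : ∀ p, z < p → p.Prime → ¬ p ^ 2 ∣ n)
    (hdiv : ∀ p, z < p → p.Prime → p ∣ n → ∀ c, c ∣ n → c ≡ 1 [MOD p] → c = 1) :
    ∃ a o : ℕ → ℕ, IsCode R r (cof z (n / pm n)) (insert (pm n) (Sz z (n / pm n))) a o := by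
  classical
  have hn0 : n ≠ 0 := by omega
  obtain ⟨-, -, h3, h4⟩ := remove hn hz hsq
  rw [h3, h4]
  obtain ⟨G, iG, iF, hcard, hcyc, hσ⟩ := h
  have hcard' : Nat.card G = n := by rw [Nat.card_eq_fintype_card, hcard]
  have hσ' : ∑ H ∈ nsg G, (Nat.card H : ℝ) = r * Nat.card G := by
    rw [hcard', ← hσ]
    exact (sum_subtype G).symm
  obtain ⟨g, hg⟩ : ∃ g : G, commutator G ⊔ zpowers g = ⊤ := by
    rcases hcyc with h | h
    · refine exists_generator ?_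
      rw [hσ']
      exact mul_le_mul_of_nonneg_right h (Nat.cast_nonneg _)
    · exact generator_of_isCyclic h
  have hex : ∀ p : ℕ, ∃ P : Subgroup G, p ∈ Sz z n → Lone P p := by
    intro p
    by_cases hp : p ∈ Sz z n
    · rw [mem_Sz hn0] at hp
      obtain ⟨P, hP⟩ := exists_lone (G := G) hp.1 (by rw [hcard']; exact hp.2.1)
        (by rw [hcard']; exact hsq p hp.2.2 hp.1) (by
          rw [hcard']
          exact hdiv p hp.2.2 hp.1 hp.2.1)
      exact ⟨P, fun _ => hP⟩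
    · exact ⟨⊥, fun h => absurd h hp⟩
  choose P hP using hex
  exact exists_code hP hg hr hσ' (by rw [hcard']; exact eq_cof_mul z hn0)

lemma log_le_of_lt {s N : ℕ} (hs : 1 ≤ s) (hN : 1 ≤ N) (h : N < 2 ^ ((s + 1) ^ 8)) :
    1 + Real.log N ≤ 257 * (s : ℝ) ^ 8 := by
  have hs' : (1 : ℝ) ≤ s := by exact_mod_cast hs
  have hN' : (0 : ℝ) < N := by exact_mod_cast hN
  have h1 : Real.log N ≤ ((s + 1) ^ 8 : ℕ) * Real.log 2 := by
    rw [← Real.log_pow]
    exact Real.log_le_log hN' (by exact_mod_cast h.le)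
  have h2 : Real.log 2 ≤ 1 := by linarith [Real.log_two_lt_d9]
  have h3 : (((s + 1) ^ 8 : ℕ) : ℝ) ≤ 256 * (s : ℝ) ^ 8 := by
    push_cast
    calc ((s : ℝ) + 1) ^ 8 ≤ (2 * s) ^ 8 := pow_le_pow_left₀ (by positivity) (by linarith) 8
      _ = _ := by ring
  have h4 : (1 : ℝ) ≤ (s : ℝ) ^ 8 := one_le_pow₀ hs'
  have h5 : (((s + 1) ^ 8 : ℕ) : ℝ) * Real.log 2 ≤ ((s + 1) ^ 8 : ℕ) * 1 :=
    mul_le_mul_of_nonneg_left h2 (Nat.cast_nonneg _)
  linarith

/-- the size of the codes -/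
lemma code_size {e R s : ℕ} (hs : R + 4 * e + 13 ≤ s) :
    (R * (s ^ (2 * e) * (s ^ (e + 8)) ^ s) + 1) ^ (s * s) * ((s * s) ^ (s * s) * (s * s)) * s ^ e ≤
      2 ^ (s ^ 5) := by
  have h2s : s ≤ 2 ^ s := Nat.lt_two_pow_self.le
  have hs1 : 1 ≤ s := by omega
  have hK : s ^ (2 * e) * (s ^ (e + 8)) ^ s ≤ 2 ^ (s * (2 * e + (e + 8) * s)) := by
    calc s ^ (2 * e) * (s ^ (e + 8)) ^ s = s ^ (2 * e + (e + 8) * s) := by
          rw [← pow_mul, ← pow_add]
      _ ≤ (2 ^ s) ^ (2 * e + (e + 8) * s) := Nat.pow_le_pow_left h2s _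
      _ = _ := by rw [← pow_mul]
  have hR : R * (s ^ (2 * e) * (s ^ (e + 8)) ^ s) + 1 ≤ 2 ^ (R + 1 + s * (2 * e + (e + 8) * s)) := by
    have h1 : R + 1 ≤ 2 ^ (R + 1) := Nat.lt_two_pow_self.le
    have h2 : 1 ≤ 2 ^ (s * (2 * e + (e + 8) * s)) := Nat.one_le_two_pow
    calc R * (s ^ (2 * e) * (s ^ (e + 8)) ^ s) + 1 ≤
        R * 2 ^ (s * (2 * e + (e + 8) * s)) + 2 ^ (s * (2 * e + (e + 8) * s)) :=
          Nat.add_le_add (Nat.mul_le_mul_left _ hK) h2
      _ = (R + 1) * 2 ^ (s * (2 * e + (e + 8) * s)) := by ring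
      _ ≤ 2 ^ (R + 1) * 2 ^ (s * (2 * e + (e + 8) * s)) := Nat.mul_le_mul_right _ h1
      _ = _ := by rw [← pow_add]
  have hss : s * s ≤ 2 ^ (2 * s) := by
    calc s * s ≤ 2 ^ s * 2 ^ s := Nat.mul_le_mul h2s h2s
      _ = _ := by rw [← pow_add]; congr 1; ring
  calc (R * (s ^ (2 * e) * (s ^ (e + 8)) ^ s) + 1) ^ (s * s) * ((s * s) ^ (s * s) * (s * s)) * s ^ e ≤
      (2 ^ (R + 1 + s * (2 * e + (e + 8) * s))) ^ (s * s) *
        ((2 ^ (2 * s)) ^ (s * s) * 2 ^ (2 * s)) * (2 ^ s) ^ e := by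
        refine Nat.mul_le_mul (Nat.mul_le_mul (Nat.pow_le_pow_left hR _)
          (Nat.mul_le_mul (Nat.pow_le_pow_left hss _) hss)) (Nat.pow_le_pow_left h2s _)
    _ = 2 ^ ((R + 1 + s * (2 * e + (e + 8) * s)) * (s * s) + (2 * s * (s * s) + 2 * s) + s * e) := by
        rw [← pow_mul, ← pow_mul, ← pow_mul, ← pow_add, ← pow_add, ← pow_add]
    _ ≤ 2 ^ (s ^ 5) := by
        refine Nat.pow_le_pow_right (by norm_num) ?_
        have a1 : s ^ 2 ≤ s ^ 4 := Nat.pow_le_pow_right hs1 (by norm_num)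
        have a2 : s ^ 3 ≤ s ^ 4 := Nat.pow_le_pow_right hs1 (by norm_num)
        have a3 : s ≤ s ^ 4 := by
          calc s = s ^ 1 := (pow_one s).symm
            _ ≤ s ^ 4 := Nat.pow_le_pow_right hs1 (by norm_num)
        calc (R + 1 + s * (2 * e + (e + 8) * s)) * (s * s) + (2 * s * (s * s) + 2 * s) + s * e =
            (R + 1) * s ^ 2 + 2 * e * s ^ 3 + (e + 8) * s ^ 4 + 2 * s ^ 3 + 2 * s + e * s := by ring
          _ ≤ (R + 1) * s ^ 4 + 2 * e * s ^ 4 + (e + 8) * s ^ 4 + 2 * s ^ 4 + 2 * s ^ 4 + e * s ^ 4 := by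
              gcongr
          _ = (R + 4 * e + 13) * s ^ 4 := by ring
          _ ≤ s * s ^ 4 := Nat.mul_le_mul_right _ hs
          _ = s ^ 5 := by ring

end Pool.Agent.Helper72.LG
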