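import Mathlib
import Pool.Agent.Helper53.GDS.Mert

/-!
# Exceptional sets of natural numbers
-/

set_option autoImplicit false

namespace Pool.Agent.Helper72.LG

open Finset

lemma card_biUnion_dvd {ι : Type*} (I : Finset ι) (f : ι → ℕ) (N : ℕ) (A : Finset ℕ)
    (hA : ∀ n ∈ A, n ∈ Ioc 0 N ∧ ∃ i ∈ I, f i ∣ n) :
    (A.card : ℝ) ≤ ∑ i ∈ I, (N : ℝ) / f i := by
  classical
  have h1 : A ⊆ I.biUnion (fun i => (Ioc 0 N).filter (fun n => f i ∣ n)) := by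
    intro n hn
    obtain ⟨h1, i, hi, h2⟩ := hA n hn
    exact mem_biUnion.2 ⟨i, hi, mem_filter.2 ⟨h1, h2⟩⟩
  have h2 : A.card ≤ ∑ i ∈ I, N / f i := by
    refine (card_le_card h1).trans (card_biUnion_le.trans (le_of_eq ?_))
    exact sum_congr rfl fun i _ => Nat.Ioc_filter_dvd_card_eq_div N (f i)
  calc (A.card : ℝ) ≤ ((∑ i ∈ I, N / f i : ℕ) : ℝ) := by exact_mod_cast h2
    _ = ∑ i ∈ I, ((N / f i : ℕ) : ℝ) := by push_cast; rfl
    _ ≤ _ := sum_le_sum fun i _ => Nat.cast_div_le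

lemma bad1 (N q : ℕ) (A : Finset ℕ) (hA : ∀ n ∈ A, n ∈ Ioc 0 N ∧ n * q ≤ N) :
    A.card * q ≤ N := by
  rcases Nat.eq_zero_or_pos q with rfl | hq
  · simp
  have h1 : A ⊆ Ioc 0 (N / q) := by
    intro n hn
    obtain ⟨h1, h2⟩ := hA n hn
    rw [mem_Ioc] at h1 ⊢
    exact ⟨h1.1, (Nat.le_div_iff_mul_le hq).2 h2⟩
  have h2 := card_le_card h1
  rw [Nat.card_Ioc, Nat.sub_zero] at h2
  exact (Nat.mul_le_mul_right q h2).trans (Nat.div_mul_le_self N q)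

lemma sum_inv_sq (B N : ℕ) (hB : 1 ≤ B) : ∑ i ∈ Ioc B N, 1 / ((i : ℝ) ^ 2) ≤ 1 / (B : ℝ) := by
  have hB0 : (0 : ℝ) < B := by exact_mod_cast hB
  rcases le_or_gt B N with h | h
  · have h1 := sum_Ioc_inv_sq_le_sub (α := ℝ) (k := B) (n := N) (by omega) h
    have h2 : (0 : ℝ) ≤ (N : ℝ)⁻¹ := by positivity
    simp only [one_div]
    linarith
  · rw [Ioc_eq_empty (by omega), sum_empty]
    positivity

lemma bad2 (N B : ℕ) (hB : 1 ≤ B) (A : Finset ℕ)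
    (hA : ∀ n ∈ A, n ∈ Ioc 0 N ∧ ∃ b, B < b ∧ b ^ 2 ∣ n) :
    (A.card : ℝ) * B ≤ N := by
  have hB0 : (0 : ℝ) < B := by exact_mod_cast hB
  have h1 := card_biUnion_dvd (Ioc B N) (fun b => b ^ 2) N A (by
    intro n hn
    obtain ⟨h1, b, h2, h3⟩ := hA n hn
    refine ⟨h1, b, mem_Ioc.2 ⟨h2, ?_⟩, h3⟩
    rw [mem_Ioc] at h1
    have h4 := Nat.le_of_dvd h1.1 h3
    nlinarith)
  have h2 : ∑ i ∈ Ioc B N, (N : ℝ) / ((i ^ 2 : ℕ) : ℝ) ≤ N * (1 / B) := by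
    calc ∑ i ∈ Ioc B N, (N : ℝ) / ((i ^ 2 : ℕ) : ℝ) = N * ∑ i ∈ Ioc B N, 1 / ((i : ℝ) ^ 2) := by
          rw [mul_sum]
          refine sum_congr rfl fun i _ => ?_
          push_cast
          ring
      _ ≤ _ := mul_le_mul_of_nonneg_left (sum_inv_sq B N hB) (Nat.cast_nonneg _)
  calc (A.card : ℝ) * B ≤ (N * (1 / B)) * B := mul_le_mul_of_nonneg_right (h1.trans h2) hB0.le
    _ = N := by field_simp

lemma sum_inv (N : ℕ) : ∑ i ∈ Ioc 0 N, 1 / (i : ℝ) ≤ 1 + Real.log N := by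
  have h1 := harmonic_le_one_add_log N
  rw [harmonic_eq_sum_Icc] at h1
  push_cast at h1
  have h2 : Ioc 0 N = Icc 1 N := by
    ext i
    rw [mem_Ioc, mem_Icc]
    omega
  rw [h2]
  simpa [one_div] using h1

lemma bad3 (N z : ℕ) (hz : 1 ≤ z) (A : Finset ℕ)
    (hA : ∀ n ∈ A, n ∈ Ioc 0 N ∧ ∃ p, z < p ∧ p.Prime ∧ p ∣ n ∧ ∃ c, c ∣ n ∧ c ≡ 1 [MOD p] ∧ c ≠ 1) :
    (A.card : ℝ) * z ≤ N * (1 + Real.log N) := by
  have hz0 : (0 : ℝ) < z := by exact_mod_cast hz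
  have h1 := card_biUnion_dvd (Ioc z N ×ˢ Ioc 0 N) (fun x => x.1 * (x.2 * x.1 + 1)) N A (by
    intro n hn
    obtain ⟨h1, p, hzp, hp, hpn, c, hcn, hcp, hc1⟩ := hA n hn
    rw [mem_Ioc] at h1
    have hc0 : 0 < c := Nat.pos_of_dvd_of_pos hcn h1.1
    have h2 : p ∣ c - 1 := (Nat.modEq_iff_dvd' (by omega)).1 hcp.symm
    obtain ⟨j, hj⟩ := h2
    have hc : c = j * p + 1 := by
      have : c - 1 = j * p := by rw [hj, mul_comm]
      omega
    have hj0 : 0 < j := by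
      rcases Nat.eq_zero_or_pos j with h | h
      · rw [h, zero_mul] at hc
        exact absurd hc hc1
      · exact h
    have hjN : j ≤ N := by
      have h3 := Nat.le_of_dvd h1.1 hcn
      have h4 : j ≤ j * p := Nat.le_mul_of_pos_right j hp.pos
      omega
    refine ⟨mem_Ioc.2 h1, (p, j), ?_, ?_⟩
    · rw [mem_product, mem_Ioc, mem_Ioc]
      exact ⟨⟨hzp, (Nat.le_of_dvd h1.1 hpn).trans h1.2⟩, hj0, hjN⟩
    · show p * (j * p + 1) ∣ n
      rw [← hc]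
      refine Nat.Coprime.mul_dvd_of_dvd_of_dvd ?_ hpn hcn
      rw [hc, Nat.coprime_mul_right_add_right]
      exact Nat.coprime_one_right p)
  have h2 : ∑ x ∈ Ioc z N ×ˢ Ioc 0 N, (N : ℝ) / ((x.1 * (x.2 * x.1 + 1) : ℕ) : ℝ) ≤
      N * ((1 / z) * (1 + Real.log N)) := by
    calc ∑ x ∈ Ioc z N ×ˢ Ioc 0 N, (N : ℝ) / ((x.1 * (x.2 * x.1 + 1) : ℕ) : ℝ)
        ≤ ∑ x ∈ Ioc z N ×ˢ Ioc 0 N, (N : ℝ) * (1 / ((x.1 : ℝ) ^ 2) * (1 / (x.2 : ℝ))) := by
          refine sum_le_sum fun x hx => ?_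
          rw [mem_product, mem_Ioc, mem_Ioc] at hx
          have ha : (0 : ℝ) < x.1 := by exact_mod_cast (by omega : 0 < x.1)
          have hb : (0 : ℝ) < x.2 := by exact_mod_cast hx.2.1
          push_cast
          rw [div_eq_mul_one_div]
          refine mul_le_mul_of_nonneg_left ?_ (Nat.cast_nonneg _)
          rw [← one_div_mul_one_div_rev, mul_comm (1 / (x.1 : ℝ) ^ 2)]
          rw [one_div_mul_one_div_rev, one_div_mul_one_div_rev]
          refine one_div_le_one_div_of_le (by positivity) ?_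
          nlinarith
      _ = N * ((∑ i ∈ Ioc z N, 1 / ((i : ℝ) ^ 2)) * ∑ j ∈ Ioc 0 N, 1 / (j : ℝ)) := by
          rw [← mul_sum, sum_mul_sum, sum_product]
      _ ≤ _ := by
          refine mul_le_mul_of_nonneg_left ?_ (Nat.cast_nonneg _)
          refine mul_le_mul (sum_inv_sq z N hz) (sum_inv N) ?_ (by positivity)
          exact sum_nonneg fun j _ => by positivity
  calc (A.card : ℝ) * z ≤ (N * ((1 / z) * (1 + Real.log N))) * z :=
        mul_le_mul_of_nonneg_right (h1.trans h2) hz0.le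
    _ = _ := by field_simp

lemma bad4 (N z w v : ℕ) (hv : 1 ≤ v) (A : Finset ℕ)
    (hA : ∀ n ∈ A, n ∈ Ioc 0 N ∧ w < (n.primeFactors.filter (fun p => p ≤ z)).card) :
    (A.card : ℝ) * (v : ℝ) ^ (w + 1) ≤ N * ∏ p ∈ Pool.GDS.prs z, (1 + (v : ℝ) / p) := by
  classical
  set Q := Pool.GDS.prs z with hQ
  have hv1 : (1 : ℝ) ≤ v := by exact_mod_cast hv
  have h1 : ∀ n ∈ Ioc 0 N, (v : ℝ) ^ (n.primeFactors.filter (fun p => p ≤ z)).card ≤
      ∑ T ∈ Q.powerset, if (∏ p ∈ T, p) ∣ n then (v : ℝ) ^ T.card else 0 := by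
    intro n hn
    rw [mem_Ioc] at hn
    set F := n.primeFactors.filter (fun p => p ≤ z) with hF
    have hFQ : F ∈ Q.powerset := by
      rw [mem_powerset]
      intro p hp
      rw [hF, mem_filter] at hp
      rw [hQ, Pool.GDS.mem_prs]
      exact ⟨Nat.prime_of_mem_primeFactors hp.1, hp.2⟩
    have hFn : (∏ p ∈ F, p) ∣ n := by
      refine Finset.prod_primes_dvd _ (fun p hp => ?_) (fun p hp => ?_)
      · exact (Nat.prime_of_mem_primeFactors (mem_filter.1 hp).1).prime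
      · exact Nat.dvd_of_mem_primeFactors (mem_filter.1 hp).1
    have h2 := single_le_sum (f := fun T : Finset ℕ => if (∏ p ∈ T, p) ∣ n then (v : ℝ) ^ T.card else 0)
      (fun T _ => by
        show (0 : ℝ) ≤ if (∏ p ∈ T, p) ∣ n then (v : ℝ) ^ T.card else 0
        split_ifs
        · positivity
        · exact le_refl _) hFQ
    refine le_trans (le_of_eq ?_) h2
    show _ = if (∏ p ∈ F, p) ∣ n then (v : ℝ) ^ F.card else 0
    rw [if_pos hFn]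
  calc (A.card : ℝ) * (v : ℝ) ^ (w + 1) = ∑ n ∈ A, (v : ℝ) ^ (w + 1) := by
        rw [sum_const, nsmul_eq_mul]
    _ ≤ ∑ n ∈ A, (v : ℝ) ^ (n.primeFactors.filter (fun p => p ≤ z)).card :=
        sum_le_sum fun n hn => pow_le_pow_right₀ hv1 (hA n hn).2
    _ ≤ ∑ n ∈ Ioc 0 N, (v : ℝ) ^ (n.primeFactors.filter (fun p => p ≤ z)).card :=
        sum_le_sum_of_subset_of_nonneg (fun n hn => (hA n hn).1) fun n _ _ => by positivity
    _ ≤ ∑ n ∈ Ioc 0 N, ∑ T ∈ Q.powerset, if (∏ p ∈ T, p) ∣ n then (v : ℝ) ^ T.card else 0 :=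
        sum_le_sum h1
    _ = ∑ T ∈ Q.powerset, ∑ n ∈ Ioc 0 N, if (∏ p ∈ T, p) ∣ n then (v : ℝ) ^ T.card else 0 :=
        sum_comm
    _ ≤ ∑ T ∈ Q.powerset, (N : ℝ) * ∏ p ∈ T, ((v : ℝ) / p) := by
        refine sum_le_sum fun T _ => ?_
        rw [← sum_filter, sum_const, Nat.Ioc_filter_dvd_card_eq_div, nsmul_eq_mul, prod_div_distrib,
          prod_const]
        have h3 : ((N / ∏ p ∈ T, p : ℕ) : ℝ) ≤ (N : ℝ) / ∏ p ∈ T, (p : ℝ) := by
          refine Nat.cast_div_le.trans (le_of_eq ?_)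
          push_cast
          rfl
        calc ((N / ∏ p ∈ T, p : ℕ) : ℝ) * (v : ℝ) ^ T.card ≤
            ((N : ℝ) / ∏ p ∈ T, (p : ℝ)) * (v : ℝ) ^ T.card :=
              mul_le_mul_of_nonneg_right h3 (by positivity)
          _ = _ := by ring
    _ = _ := by
        rw [← mul_sum, prod_one_add]

lemma sum_tau (N : ℕ) : ∑ n ∈ Ioc 0 N, (n.divisors.card : ℝ) ≤ N * (1 + Real.log N) := by
  have h1 : ∀ n ∈ Ioc 0 N, (n.divisors.card : ℝ) = ∑ d ∈ Ioc 0 N, if d ∣ n then (1 : ℝ) else 0 := by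
    intro n hn
    rw [mem_Ioc] at hn
    rw [← sum_filter, sum_const, nsmul_eq_mul, mul_one]
    congr 2
    ext d
    rw [Nat.mem_divisors, mem_filter, mem_Ioc]
    constructor
    · rintro ⟨h, _⟩
      exact ⟨⟨Nat.pos_of_dvd_of_pos h hn.1, (Nat.le_of_dvd hn.1 h).trans hn.2⟩, h⟩
    · rintro ⟨_, h⟩
      exact ⟨h, hn.1.ne'⟩
  rw [sum_congr rfl h1, sum_comm]
  calc ∑ d ∈ Ioc 0 N, ∑ n ∈ Ioc 0 N, (if d ∣ n then (1 : ℝ) else 0) ≤
      ∑ d ∈ Ioc 0 N, (N : ℝ) * (1 / (d : ℝ)) := by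
        refine sum_le_sum fun d _ => ?_
        rw [← sum_filter, sum_const, Nat.Ioc_filter_dvd_card_eq_div, nsmul_eq_mul, mul_one]
        refine Nat.cast_div_le.trans (le_of_eq ?_)
        ring
    _ = N * ∑ d ∈ Ioc 0 N, 1 / (d : ℝ) := by rw [mul_sum]
    _ ≤ _ := mul_le_mul_of_nonneg_left (sum_inv N) (Nat.cast_nonneg _)

lemma two_pow_omega_le {n : ℕ} (hn : n ≠ 0) : 2 ^ n.primeFactors.card ≤ n.divisors.card := by
  rw [Nat.card_divisors hn, ← prod_const]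
  refine prod_le_prod' fun p hp => ?_
  have : 0 < n.factorization p := (Nat.prime_of_mem_primeFactors hp).factorization_pos_of_dvd hn
    (Nat.dvd_of_mem_primeFactors hp)
  omega

lemma bad5 (N W : ℕ) (A : Finset ℕ) (hA : ∀ n ∈ A, n ∈ Ioc 0 N ∧ W < n.primeFactors.card) :
    (A.card : ℝ) * (2 : ℝ) ^ W ≤ N * (1 + Real.log N) := by
  calc (A.card : ℝ) * (2 : ℝ) ^ W = ∑ n ∈ A, (2 : ℝ) ^ W := by
        rw [sum_const, nsmul_eq_mul]
    _ ≤ ∑ n ∈ A, (n.divisors.card : ℝ) := by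
        refine sum_le_sum fun n hn => ?_
        obtain ⟨h1, h2⟩ := hA n hn
        rw [mem_Ioc] at h1
        have h3 : 2 ^ W ≤ n.divisors.card :=
          (Nat.pow_le_pow_right (by norm_num) h2.le).trans (two_pow_omega_le h1.1.ne')
        exact_mod_cast h3
    _ ≤ ∑ n ∈ Ioc 0 N, (n.divisors.card : ℝ) :=
        sum_le_sum_of_subset_of_nonneg (fun n hn => (hA n hn).1) fun n _ _ => Nat.cast_nonneg _
    _ ≤ _ := sum_tau N

end Pool.Agent.Helper72.LG
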