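import Pool.Agent.Helper72.LG.Final

/-!
# The counting function, real form
-/

set_option autoImplicit false

namespace Pool.Agent.Helper72.LG

open Finset

lemma exists_eighth {l : ℕ} : ∃ s : ℕ, s ^ 8 ≤ l ∧ l < (s + 1) ^ 8 := by
  have hex : ∃ s : ℕ, l < (s + 1) ^ 8 := ⟨l, by
    calc l < l + 1 := Nat.lt_succ_self l
      _ = (l + 1) ^ 1 := (pow_one _).symm
      _ ≤ (l + 1) ^ 8 := Nat.pow_le_pow_right (Nat.succ_pos l) (by norm_num)⟩
  classical
  refine ⟨Nat.find hex, ?_, Nat.find_spec hex⟩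
  rcases Nat.eq_zero_or_pos (Nat.find hex) with h | h
  · rw [h]
    simp
  · have h1 := Nat.find_min hex (m := Nat.find hex - 1) (by omega)
    rw [Nat.sub_add_cancel h] at h1
    exact not_lt.1 h1

theorem main_real (A R : ℕ) : ∃ C : ℝ, ∀ r : ℝ, r ≤ R → ∀ x : ℝ, 2 ≤ x →
    (Set.ncard {n : ℕ | (n : ℝ) ≤ x ∧ IsOrd r n} : ℝ) ≤ C * x / Real.log x ^ A := by
  classical
  obtain ⟨C, hC, s₀, hs₀, hmain⟩ := main_nat (8 * A) R
  set C₁ : ℝ := (((s₀ + 1) ^ 8 : ℕ) : ℝ) ^ A with hC₁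
  refine ⟨max (256 ^ A * C) C₁, fun r hr x hx => ?_⟩
  set N := ⌊x⌋₊ with hN
  have hx0 : 0 ≤ x := by linarith
  have hNx : (N : ℝ) ≤ x := Nat.floor_le hx0
  have hxN : x < N + 1 := Nat.lt_floor_add_one x
  have hN2 : 2 ≤ N := Nat.le_floor (by exact_mod_cast hx)
  have hlogx : 0 < Real.log x := Real.log_pos (by linarith)
  have hfin : {n : ℕ | (n : ℝ) ≤ x ∧ IsOrd r n}.Finite := by
    refine (Set.finite_Iic N).subset fun n hn => ?_
    exact Nat.le_floor hn.1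
  set B := hfin.toFinset with hB
  have hBmem : ∀ n ∈ B, n ∈ Ioc 0 N ∧ IsOrd r n := by
    intro n hn
    rw [hB, Set.Finite.mem_toFinset] at hn
    refine ⟨mem_Ioc.2 ⟨?_, Nat.le_floor hn.1⟩, hn.2⟩
    obtain ⟨G, iG, iF, hcard, -⟩ := hn.2
    rw [← hcard]
    exact Fintype.card_pos
  rw [Set.ncard_eq_toFinset_card _ hfin, ← hB]
  have hBN : (B.card : ℝ) ≤ x := by
    have h1 : B.card ≤ N := by
      calc B.card ≤ (Ioc 0 N).card := card_le_card fun n hn => (hBmem n hn).1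
        _ = N := by rw [Nat.card_Ioc, Nat.sub_zero]
    exact (by exact_mod_cast h1 : (B.card : ℝ) ≤ N).trans hNx
  rw [le_div_iff₀ (by positivity)]
  obtain ⟨s, hs1, hs2⟩ := exists_eighth (l := Nat.log 2 N)
  have hN0 : N ≠ 0 := by omega
  have hNlow : 2 ^ (s ^ 8) ≤ N :=
    (Nat.pow_le_pow_right (by norm_num) hs1).trans (Nat.pow_log_le_self 2 hN0)
  have hNup : N + 1 ≤ 2 ^ ((s + 1) ^ 8) := by
    calc N + 1 ≤ 2 ^ (Nat.log 2 N + 1) := Nat.lt_pow_succ_log_self (by norm_num) N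
      _ ≤ 2 ^ ((s + 1) ^ 8) := Nat.pow_le_pow_right (by norm_num) hs2
  have hlog : Real.log x ≤ (((s + 1) ^ 8 : ℕ) : ℝ) := by
    have h1 : x ≤ (2 : ℝ) ^ ((s + 1) ^ 8) := by
      have h2 : ((N + 1 : ℕ) : ℝ) ≤ ((2 ^ ((s + 1) ^ 8) : ℕ) : ℝ) := by exact_mod_cast hNup
      push_cast at h2
      linarith
    have h2 : Real.log x ≤ Real.log ((2 : ℝ) ^ ((s + 1) ^ 8)) := Real.log_le_log (by linarith) h1
    rw [Real.log_pow] at h2
    have h3 : Real.log 2 ≤ 1 := by linarith [Real.log_two_lt_d9]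
    have h4 : (((s + 1) ^ 8 : ℕ) : ℝ) * Real.log 2 ≤ ((s + 1) ^ 8 : ℕ) * 1 :=
      mul_le_mul_of_nonneg_left h3 (Nat.cast_nonneg _)
    linarith
  rcases lt_or_ge s s₀ with hlt | hge
  · have h1 : Real.log x ^ A ≤ C₁ := by
      rw [hC₁]
      refine pow_le_pow_left₀ hlogx.le (hlog.trans ?_) A
      have : (s + 1) ^ 8 ≤ (s₀ + 1) ^ 8 := Nat.pow_le_pow_left (by omega) 8
      exact_mod_cast this
    calc (B.card : ℝ) * Real.log x ^ A ≤ x * C₁ :=
          mul_le_mul hBN h1 (by positivity) hx0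
      _ = C₁ * x := mul_comm _ _
      _ ≤ max (256 ^ A * C) C₁ * x := mul_le_mul_of_nonneg_right (le_max_right _ _) hx0
  · have h1 := hmain s hge N hNlow (by omega) r hr B hBmem
    have hs1' : (1 : ℝ) ≤ s := by exact_mod_cast hs₀.trans hge
    have h2 : Real.log x ^ A ≤ 256 ^ A * (s : ℝ) ^ (8 * A) := by
      calc Real.log x ^ A ≤ ((((s + 1) ^ 8 : ℕ) : ℝ)) ^ A := pow_le_pow_left₀ hlogx.le hlog A
        _ ≤ (256 * (s : ℝ) ^ 8) ^ A := by
            refine pow_le_pow_left₀ (Nat.cast_nonneg _) ?_ A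
            push_cast
            calc ((s : ℝ) + 1) ^ 8 ≤ (2 * s) ^ 8 := pow_le_pow_left₀ (by positivity) (by linarith) 8
              _ = _ := by ring
        _ = _ := by rw [mul_pow, ← pow_mul]
    calc (B.card : ℝ) * Real.log x ^ A ≤ B.card * (256 ^ A * (s : ℝ) ^ (8 * A)) :=
          mul_le_mul_of_nonneg_left h2 (Nat.cast_nonneg _)
      _ = 256 ^ A * (B.card * (s : ℝ) ^ (8 * A)) := by ring
      _ ≤ 256 ^ A * (C * N) := mul_le_mul_of_nonneg_left h1 (by positivity)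
      _ ≤ 256 ^ A * (C * x) := by
          refine mul_le_mul_of_nonneg_left (mul_le_mul_of_nonneg_left hNx hC) (by positivity)
      _ = 256 ^ A * C * x := by ring
      _ ≤ max (256 ^ A * C) C₁ * x := mul_le_mul_of_nonneg_right (le_max_left _ _) hx0

end Pool.Agent.Helper72.LG
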