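import Pool.Agent.Helper72.LG.Fiber

/-!
# The sum of the orders of the normal subgroups, several normal subgroups of prime order
-/

set_option autoImplicit false

namespace Pool.Agent.Helper72.LG

open Subgroup Finset

variable {G : Type*} [Group G] [Finite G]

/-- the normal subgroups -/
noncomputable def nsg (G : Type*) [Group G] [Finite G] : Finset (Subgroup G) :=
  (Set.toFinite {N : Subgroup G | N.Normal}).toFinset

lemma mem_nsg {N : Subgroup G} : N ∈ nsg G ↔ N.Normal := by
  simp [nsg]

open scoped Classical in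
/-- the normal subgroups above all the given ones -/
noncomputable def above (S : Finset ℕ) (P : ℕ → Subgroup G) : Finset (Subgroup G) :=
  (nsg G).filter (fun H => ∀ p ∈ S, P p ≤ H)

lemma mem_above {S : Finset ℕ} {P : ℕ → Subgroup G} {H : Subgroup G} :
    H ∈ above S P ↔ H.Normal ∧ ∀ p ∈ S, P p ≤ H := by
  simp [above, mem_nsg]

open scoped Classical in
/-- the weight -/
noncomputable def wt (S : Finset ℕ) (P : ℕ → Subgroup G) (H : Subgroup G) : ℝ :=
  ∏ p ∈ S, if H ≤ centralizer (P p : Set G) then 1 + 1 / (p : ℝ) else 1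

lemma Lone.not_le {P Q : Subgroup G} {p q : ℕ} (hp : Lone P p) (hq : Lone Q q) (hpq : p ≠ q) :
    ¬ P ≤ Q := by
  rw [hp.le_iff, hq.card]
  intro h
  exact hpq ((Nat.prime_dvd_prime_iff_eq hp.prime hq.prime).1 h)

lemma Lone.le_sup_iff {P Q : Subgroup G} {p q : ℕ} (hp : Lone P p) (hq : Lone Q q) (hpq : p ≠ q)
    (N : Subgroup G) : P ≤ N ⊔ Q ↔ P ≤ N := by
  by_cases hQ : Q ≤ N
  · rw [sup_eq_left.2 hQ]
  · rw [hp.le_iff, hq.card_sup hQ, hp.le_iff, Nat.Prime.dvd_mul hp.prime]
    constructor
    · rintro (h | h)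
      · exact h
      · exact absurd ((Nat.prime_dvd_prime_iff_eq hp.prime hq.prime).1 h) hpq
    · exact Or.inl

lemma Lone.sup_le_iff {P Q : Subgroup G} {p q : ℕ} (hp : Lone P p) (hq : Lone Q q) (hpq : p ≠ q)
    (N : Subgroup G) : N ⊔ Q ≤ centralizer (P : Set G) ↔ N ≤ centralizer (P : Set G) := by
  rw [_root_.sup_le_iff]
  exact ⟨And.left, fun h => ⟨h, hp.le_centralizer hq.normal (hp.not_le hq hpq)⟩⟩

omit [Finite G] in
lemma wt_insert {S : Finset ℕ} {q : ℕ} (hq : q ∉ S) (P : ℕ → Subgroup G) (H : Subgroup G)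
    [Decidable (H ≤ centralizer (P q : Set G))] :
    wt (insert q S) P H = (if H ≤ centralizer (P q : Set G) then 1 + 1 / (q : ℝ) else 1) * wt S P H := by
  unfold wt
  rw [prod_insert hq]
  congr 1
  split_ifs <;> rfl

lemma sum_insert {S : Finset ℕ} {q : ℕ} (hqS : q ∉ S) (P : ℕ → Subgroup G)
    (hP : ∀ p ∈ insert q S, Lone (P p) p) :
    ∑ H ∈ above S P, wt S P H * Nat.card H =
      ∑ H ∈ above (insert q S) P, wt (insert q S) P H * Nat.card H := by
  classical
  have hq := hP q (mem_insert_self q S)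
  have hS : ∀ p ∈ S, Lone (P p) p := fun p hp => hP p (mem_insert_of_mem hp)
  have hne : ∀ p ∈ S, p ≠ q := fun p hp h => hqS (h ▸ hp)
  set f : Subgroup G → ℝ := fun H => if ∀ p ∈ S, P p ≤ H then wt S P H else 0 with hf
  have hfs : ∀ N : Subgroup G, N.Normal → f (N ⊔ P q) = f N := by
    intro N _
    have h1 : (∀ p ∈ S, P p ≤ N ⊔ P q) ↔ ∀ p ∈ S, P p ≤ N := by
      constructor
      · intro h p hp
        exact ((hS p hp).le_sup_iff hq (hne p hp) N).1 (h p hp)
      · intro h p hp
        exact ((hS p hp).le_sup_iff hq (hne p hp) N).2 (h p hp)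
    have h2 : wt S P (N ⊔ P q) = wt S P N := by
      unfold wt
      refine prod_congr rfl fun p hp => ?_
      simp only [(hS p hp).sup_le_iff hq (hne p hp) N]
    simp only [hf, h1, h2]
  have hsplit := sum_filter_add_sum_filter_not (above S P) (fun H => P q ≤ H)
    (fun H => wt S P H * (Nat.card H : ℝ))
  rw [← hsplit]
  have h1 : (above S P).filter (fun H => P q ≤ H) = above (insert q S) P := by
    ext H
    rw [mem_filter, mem_above, mem_above, forall_mem_insert]
    tauto
  have h2 := hq.sum_not_le f ((nsg G).filter (fun N => ¬ P q ≤ N))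
    ((nsg G).filter (fun H => P q ≤ H ∧ H ≤ centralizer (P q : Set G)))
    (fun N => by rw [mem_filter, mem_nsg]) (fun H => by rw [mem_filter, mem_nsg]) hfs
  have h3 : ∑ H ∈ (above S P).filter (fun H => ¬ P q ≤ H), wt S P H * (Nat.card H : ℝ) =
      ∑ N ∈ (nsg G).filter (fun N => ¬ P q ≤ N), f N * Nat.card N := by
    have h4 : (above S P).filter (fun H => ¬ P q ≤ H) =
        ((nsg G).filter (fun N => ¬ P q ≤ N)).filter (fun N => ∀ p ∈ S, P p ≤ N) := by
      ext H
      rw [mem_filter, mem_above, mem_filter, mem_filter, mem_nsg]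
      tauto
    rw [h4, sum_filter]
    refine sum_congr rfl fun N _ => ?_
    simp only [hf]
    split_ifs <;> simp
  have h5 : ∑ H ∈ (nsg G).filter (fun H => P q ≤ H ∧ H ≤ centralizer (P q : Set G)),
      f H * Nat.card H * (1 / (q : ℝ)) =
      ∑ H ∈ above (insert q S) P,
        if H ≤ centralizer (P q : Set G) then wt S P H * Nat.card H * (1 / (q : ℝ)) else 0 := by
    have h6 : (nsg G).filter (fun H => P q ≤ H ∧ H ≤ centralizer (P q : Set G)) =
        ((nsg G).filter (fun H => P q ≤ H)).filter (fun H => H ≤ centralizer (P q : Set G)) := by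
      rw [filter_filter]
    have h7 : above (insert q S) P = ((nsg G).filter (fun H => P q ≤ H)).filter (fun H => ∀ p ∈ S, P p ≤ H) := by
      ext H
      rw [mem_above, forall_mem_insert, mem_filter, mem_filter, mem_nsg]
      tauto
    rw [h6, h7, sum_filter, sum_filter (s := (nsg G).filter (fun H => P q ≤ H))]
    refine sum_congr rfl fun H _ => ?_
    simp only [hf]
    split_ifs <;> simp
  rw [h1, h3, h2, h5, ← sum_add_distrib]
  refine sum_congr rfl fun H _ => ?_
  rw [wt_insert hqS]
  split_ifs <;> ring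

/-- the sum of the orders of the normal subgroups -/
lemma sum_nsg (S : Finset ℕ) (P : ℕ → Subgroup G) (hP : ∀ p ∈ S, Lone (P p) p) :
    ∑ H ∈ nsg G, (Nat.card H : ℝ) = ∑ H ∈ above S P, wt S P H * Nat.card H := by
  classical
  induction S using Finset.induction_on with
  | empty =>
    have h1 : above (∅ : Finset ℕ) P = nsg G := by
      ext H
      rw [mem_above, mem_nsg]
      simp
    rw [h1]
    refine sum_congr rfl fun H _ => ?_
    simp [wt]
  | insert q S hq ih =>
    rw [ih fun p hp => hP p (mem_insert_of_mem hp), sum_insert hq P hP]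

end Pool.Agent.Helper72.LG
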