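import Pool.Agent.Helper72.LG.Code

/-!
# Normal Sylow subgroups from arithmetic
-/

set_option autoImplicit false

namespace Pool.Agent.Helper72.LG

open Subgroup Finset

variable {G : Type*} [Group G] [Finite G]

lemma exists_lone {p : ℕ} (hp : p.Prime) (hpn : p ∣ Nat.card G) (hpp : ¬ p ^ 2 ∣ Nat.card G)
    (hdiv : ∀ e, e ∣ Nat.card G → e ≡ 1 [MOD p] → e = 1) : ∃ P : Subgroup G, Lone P p := by
  have : Fact p.Prime := ⟨hp⟩
  obtain ⟨P⟩ : Nonempty (Sylow p G) := inferInstance
  have h1 : Nat.card (Sylow p G) = 1 := by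
    refine hdiv _ ?_ (card_sylow_modEq_one p G)
    exact (Sylow.card_dvd_index P).trans (Subgroup.index_dvd_card _)
  have h2 : Subsingleton (Sylow p G) := (Nat.card_eq_one_iff_unique.1 h1).1
  have h3 : (P : Subgroup G).Normal := Sylow.normal_of_subsingleton P
  have h4 : (Nat.card G).factorization p = 1 := by
    have h5 : 1 ≤ (Nat.card G).factorization p := by
      rw [← hp.pow_dvd_iff_le_factorization Nat.card_pos.ne', pow_one]
      exact hpn
    have h6 : ¬ 2 ≤ (Nat.card G).factorization p := by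
      rwa [← hp.pow_dvd_iff_le_factorization Nat.card_pos.ne']
    omega
  have h5 : Nat.card (P : Subgroup G) = p := by
    rw [Sylow.card_eq_multiplicity, h4, pow_one]
  refine ⟨P, hp, h3, h5, fun h => hpp ?_⟩
  have h6 := (P : Subgroup G).card_mul_index
  rw [h5] at h6
  rw [← h6, sq]
  exact Nat.mul_dvd_mul_left p h

end Pool.Agent.Helper72.LG
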